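import Mathlib
import Pool.Agent.Lib.MP_ec260d_ntB.Defs

/-!
# Group V: definitions and elementary facts

A cut is an index `l` with `g ≤ w l`; `Nc w g i` is the number of cuts before `i`, so `Nc` is constant on near clusters.
-/

namespace Pool.Agent.Lib.MP_ec260d_ntD.VG

open Complex Set Filter Topology MeasureTheory
open Pool.Agent.Lib.MP_ec260d_ntB

/-- the number of cuts before `i` -/
noncomputable def Nc (w : ℕ → ℝ) (g : ℝ) (i : ℕ) : ℕ := ((Finset.range i).filter (fun l => g ≤ w l)).card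

/-- the primes in `(10000, T ^ δ]` -/
noncomputable def PT (δ T : ℝ) : Finset ℕ :=
  (Finset.range (⌊Real.exp (δ * Real.log T)⌋₊ + 1)).filter (fun p => p.Prime ∧ 10000 < p)

/-- the covariance of two positions at distance `y` -/
noncomputable def SS (δ W T y : ℝ) : ℝ :=
  ∑ p ∈ PT δ T, (p : ℝ) ^ (-1 - 2 * W / Real.log T) * Real.cos (y * Real.log p)

/-- extension of a function on `Fin (k + 1)` to the natural numbers -/
def ex {k : ℕ} {α : Type} (f : Fin (k + 1) → α) (i : ℕ) : α := f ⟨min i k, by omega⟩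

/-- the logarithm of the truncated gap `l` -/
noncomputable def wN (T η : ℝ) {k : ℕ} (cl : Fin (k + 1) → Fin (k + 1)) (al : Fin (k + 1) → ℝ) (l : ℕ) : ℝ :=
  if ex cl l = ex cl (l + 1) then
    Real.log (min ((ex al (l + 1) - ex al l) / hT T) (Real.log T ^ (1 - η)))
  else (1 - η) * Real.log (Real.log T)

/-- the covariance matrix -/
noncomputable def lamN (δ W T : ℝ) {k : ℕ} (cl : Fin (k + 1) → Fin (k + 1)) (al : Fin (k + 1) → ℝ) (i i' : ℕ) : ℝ :=
  if ex cl i = ex cl i' then SS δ W T (ex al i - ex al i') else 0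

theorem Nc_mono (w : ℕ → ℝ) (g : ℝ) {i i' : ℕ} (h : i ≤ i') : Nc w g i ≤ Nc w g i' := by
  unfold Nc
  exact Finset.card_le_card (Finset.filter_subset_filter _ (Finset.range_subset_range.mpr h))

theorem Nc_succ (w : ℕ → ℝ) (g : ℝ) {l : ℕ} (h : g ≤ w l) : Nc w g (l + 1) = Nc w g l + 1 := by
  unfold Nc
  rw [Finset.range_add_one, Finset.filter_insert, if_pos h, Finset.card_insert_of_notMem]
  simp

theorem Nc_le (w : ℕ → ℝ) (g : ℝ) (i : ℕ) : Nc w g i ≤ i := by
  unfold Nc
  exact (Finset.card_filter_le _ _).trans (by simp)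

theorem Nc_eq (w : ℕ → ℝ) (g : ℝ) {i i' : ℕ} (h : Nc w g i = Nc w g i') (l : ℕ) (h1 : i ≤ l) (h2 : l < i') :
    w l < g := by
  by_contra hc
  rw [not_lt] at hc
  have e1 := Nc_mono w g h1
  have e2 := Nc_succ w g hc
  have e3 := Nc_mono w g (show l + 1 ≤ i' from h2)
  omega

theorem Nc_ne (w : ℕ → ℝ) (g : ℝ) {i i' : ℕ} (hi : i ≤ i') (h : Nc w g i ≠ Nc w g i') :
    ∃ l, i ≤ l ∧ l < i' ∧ g ≤ w l := by
  by_contra hc
  push Not at hc
  refine h (le_antisymm (Nc_mono w g hi) ?_)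
  unfold Nc
  apply Finset.card_le_card
  intro l hl
  rw [Finset.mem_filter, Finset.mem_range] at hl ⊢
  refine ⟨?_, hl.2⟩
  by_contra h3
  exact absurd hl.2 (not_le.mpr (hc l (not_lt.mp h3) hl.1))

theorem ex_eq {k : ℕ} {α : Type} (f : Fin (k + 1) → α) (i : Fin (k + 1)) : ex f i = f i := by
  unfold ex
  congr 1
  apply Fin.ext
  have := i.2
  change min (i : ℕ) k = i
  omega

theorem SS_neg (δ W T y : ℝ) : SS δ W T (-y) = SS δ W T y := by
  unfold SS
  refine Finset.sum_congr rfl fun p _ => ?_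
  rw [neg_mul, Real.cos_neg]

theorem SS_abs (δ W T y : ℝ) : SS δ W T |y| = SS δ W T y := by
  rcases abs_choice y with h | h
  · rw [h]
  · rw [h, SS_neg]

end Pool.Agent.Lib.MP_ec260d_ntD.VG
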