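import Mathlib
import Pool.Agent.Lib.MP_ec260d_ntD.V.VDefs

/-!
# VClu: the sums over the near clusters

`N = Nc w g`, `C m = ∑_(i ≤ k, N i = m) b i`, `A m = ∑_(i ≤ k, N i ≤ m) b i`, so `C 0 = A 0` and `C (m+1) = A (m+1) - A m`,
hence `∑_(m ≤ k) (C m)^2 ≤ 4 ∑_(m ≤ k) (A m)^2` (`(x - y)^2 ≤ 2 x^2 + 2 y^2`).
If `A m ≠ 0` then (as `∑ b = 0`) some `i ≤ k` has `m < N i`, so there is a cut `l < k` with `N l = m` (the first index `i` with `m < N i` is `l + 1` and
`N (l+1) ≤ N l + 1`; `N 0 = 0 ≤ m`; use `Nat.find`; note `N (l + 1) = N l` if `l` is not a cut), and `{i ≤ k : N i ≤ m} = {i ≤ l}` (`Nc_mono`, `Nc_succ`), so `A m = B l`, `B l = ∑_(i ≤ l) b i`.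
So `(A m)^2 ≤ ∑_(cuts l < k, N l = m) (B l)^2`, and the sum over `m` is `≤ ∑_(cuts l < k) (B l)^2`.
-/

namespace Pool.Agent.Lib.MP_ec260d_ntD.VG

open Complex Set Filter Topology MeasureTheory
open Pool.Agent.Lib.MP_ec260d_ntB

private theorem clu_succ_of_lt (w : ℕ → ℝ) (g : ℝ) {l : ℕ} (h : w l < g) :
    Nc w g (l + 1) = Nc w g l := by
  unfold Nc
  rw [Finset.range_add_one, Finset.filter_insert, if_neg (not_le.mpr h)]

private theorem clu_zero (w : ℕ → ℝ) (g : ℝ) : Nc w g 0 = 0 := by
  unfold Nc
  rw [Finset.range_zero, Finset.filter_empty, Finset.card_empty]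

private theorem clu_sq (C A : ℕ → ℝ) (h0 : C 0 = A 0) (hs : ∀ m, C (m + 1) = A (m + 1) - A m)
    (n : ℕ) : ∑ m ∈ Finset.range (n + 1), C m ^ 2 ≤
      4 * ∑ m ∈ Finset.range n, A m ^ 2 + 2 * A n ^ 2 := by
  induction n with
  | zero =>
    rw [Finset.sum_range_one, Finset.sum_range_zero, h0]
    have := sq_nonneg (A 0)
    linarith
  | succ n ih =>
    rw [Finset.sum_range_succ, Finset.sum_range_succ (fun m => A m ^ 2), hs n]
    have h1 : (A (n + 1) - A n) ^ 2 ≤ 2 * A (n + 1) ^ 2 + 2 * A n ^ 2 := by
      nlinarith [sq_nonneg (A (n + 1) + A n)]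
    linarith

theorem clu (k : ℕ) (b w : ℕ → ℝ) (g : ℝ) (hb : ∑ i ∈ Finset.range (k + 1), b i = 0) :
    ∑ m ∈ Finset.range (k + 1), (∑ i ∈ Finset.range (k + 1), if Nc w g i = m then b i else 0) ^ 2 ≤
      4 * ∑ l ∈ (Finset.range k).filter (fun l => g ≤ w l), (∑ i ∈ Finset.range (l + 1), b i) ^ 2 := by
  have h0 : (∑ i ∈ Finset.range (k + 1), if Nc w g i = 0 then b i else 0) =
      ∑ i ∈ Finset.range (k + 1), if Nc w g i ≤ 0 then b i else 0 := by
    refine Finset.sum_congr rfl fun i _ => ?_
    by_cases h : Nc w g i = 0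
    · rw [if_pos h, if_pos (by omega)]
    · rw [if_neg h, if_neg (by omega)]
  have hs : ∀ m, (∑ i ∈ Finset.range (k + 1), if Nc w g i = m + 1 then b i else 0) =
      (∑ i ∈ Finset.range (k + 1), if Nc w g i ≤ m + 1 then b i else 0) -
        ∑ i ∈ Finset.range (k + 1), if Nc w g i ≤ m then b i else 0 := by
    intro m
    rw [← Finset.sum_sub_distrib]
    refine Finset.sum_congr rfl fun i _ => ?_
    rcases lt_trichotomy (Nc w g i) (m + 1) with h | h | h
    · rw [if_neg (by omega), if_pos (by omega), if_pos (by omega), sub_self]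
    · rw [if_pos h, if_pos (by omega), if_neg (by omega), sub_zero]
    · rw [if_neg (by omega), if_neg (by omega), if_neg (by omega), sub_self]
  have h1 := clu_sq (fun m => ∑ i ∈ Finset.range (k + 1), if Nc w g i = m then b i else 0)
    (fun m => ∑ i ∈ Finset.range (k + 1), if Nc w g i ≤ m then b i else 0) h0 hs k
  have h2 : ∀ m ∈ Finset.range (k + 1),
      (∑ i ∈ Finset.range (k + 1), if Nc w g i ≤ m then b i else 0) ^ 2 ≤
        ∑ l ∈ ((Finset.range k).filter (fun l => g ≤ w l)).filter (fun l => Nc w g l = m),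
          (∑ i ∈ Finset.range (l + 1), b i) ^ 2 := by
    intro m _
    have hnn : ∀ l ∈ ((Finset.range k).filter (fun l => g ≤ w l)).filter
        (fun l => Nc w g l = m), 0 ≤ (∑ i ∈ Finset.range (l + 1), b i) ^ 2 :=
      fun l _ => sq_nonneg _
    by_cases hex : ∃ i, i ≤ k ∧ m < Nc w g i
    · have hspec := Nat.find_spec hex
      have hmin := fun i => @Nat.find_min _ _ hex i
      generalize Nat.find hex = i0 at hspec hmin
      obtain ⟨hik, hmi⟩ := hspec
      cases i0 with
      | zero =>
        rw [clu_zero] at hmi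
        exact absurd hmi (Nat.not_lt_zero m)
      | succ l =>
        have hl1 : Nc w g l ≤ m := by
          by_contra hc
          exact hmin l (Nat.lt_succ_self l) ⟨by omega, not_le.mp hc⟩
        have hcut : g ≤ w l := by
          by_contra hc
          rw [clu_succ_of_lt w g (not_le.mp hc)] at hmi
          omega
        have hlm : Nc w g l = m := by
          rw [Nc_succ w g hcut] at hmi
          omega
        have hA : (∑ i ∈ Finset.range (k + 1), if Nc w g i ≤ m then b i else 0) =
            ∑ i ∈ Finset.range (l + 1), b i := by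
          rw [← Finset.sum_filter]
          refine Finset.sum_congr ?_ fun _ _ => rfl
          ext i
          rw [Finset.mem_filter, Finset.mem_range, Finset.mem_range]
          constructor
          · rintro ⟨_, h4⟩
            by_contra hc
            have h5 := Nc_mono w g (show l + 1 ≤ i by omega)
            omega
          · intro h4
            refine ⟨by omega, ?_⟩
            have h5 := Nc_mono w g (show i ≤ l by omega)
            omega
        rw [hA]
        refine Finset.single_le_sum (f := fun l => (∑ i ∈ Finset.range (l + 1), b i) ^ 2) hnn ?_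
        rw [Finset.mem_filter, Finset.mem_filter, Finset.mem_range]
        exact ⟨⟨by omega, hcut⟩, hlm⟩
    · push Not at hex
      have hA : (∑ i ∈ Finset.range (k + 1), if Nc w g i ≤ m then b i else 0) = 0 := by
        rw [← hb]
        refine Finset.sum_congr rfl fun i hi => ?_
        rw [Finset.mem_range] at hi
        rw [if_pos (hex i (by omega))]
      rw [hA]
      have h3 := Finset.sum_nonneg hnn
      simpa using h3
  have h3 : ∑ m ∈ Finset.range (k + 1),
      ∑ l ∈ ((Finset.range k).filter (fun l => g ≤ w l)).filter (fun l => Nc w g l = m),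
          (∑ i ∈ Finset.range (l + 1), b i) ^ 2 =
      ∑ l ∈ (Finset.range k).filter (fun l => g ≤ w l), (∑ i ∈ Finset.range (l + 1), b i) ^ 2 := by
    refine Finset.sum_fiberwise_of_maps_to ?_ _
    intro l hl
    rw [Finset.mem_filter, Finset.mem_range] at hl
    rw [Finset.mem_range]
    have := Nc_le w g l
    omega
  have h4 := Finset.sum_le_sum h2
  rw [h3, Finset.sum_range_succ] at h4
  have h5 := sq_nonneg (∑ i ∈ Finset.range (k + 1), if Nc w g i ≤ k then b i else 0)
  linarith

end Pool.Agent.Lib.MP_ec260d_ntD.VG
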