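import Mathlib
import Pool.Agent.Lib.MP_ec260d_ntB.CUlt
import Pool.Agent.Lib.MP_ec260d_ntD.V.VClu

/-!
# VAbs: lower bound for the quadratic form

`N = Nc w g`, `B l = ∑_(i ≤ l) b i`, `C' m = ∑_(i ≤ k, N i = m) b i` (`m ≤ k`; `N i ≤ i ≤ k`), `Y = ∑_(l<k) (B l)^2 w l`, `X = ∑_(l<k) (B l)^2`, `Z` = sum of `(B l)^2` over the cuts `l < k`.

1. For each `m` pick a representative `r m` (an index `i ≤ k` with `N i = m`, if there is one; otherwise `0`); `μ m m' = lam (r m) (r m')`. If `N i ≠ N i'` then `|lam i i' - μ (N i) (N i')| ≤ C` (`hv` with `j = r (N i)`, `j' = r (N i')`) and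
   `|μ (N i) (N i')| ≤ Q`.
   Put `v i i' = ell - L i i'` if `N i = N i'` and `v i i' = μ (N i) (N i')` otherwise: `|lam i i' - v i i'| ≤ C` for all `i, i' ≤ k`, so
   `∑∑ b b' lam ≥ ∑∑ b b' v - C (∑ |b i|)^2`, and `(∑ |b i|)^2 ≤ 4 k X` (`b 0 = B 0`, `b (i+1) = B (i+1) - B i`, `B k = 0`; see `cvar_quad`, `cvar_l1` in Lib/MP_ec260d_ntB/CVar.lean, they are private: copy them).
2. `∑_(N i ≠ N i') b b' μ (N i) (N i') = ∑_(m ≠ m') C' m * C' m' * μ m m' ≥ - Q (∑ |C' m|)^2 ≥ - Q (k+1) ∑ (C' m)^2`.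
   (Only pairs `m, m'` which occur matter; if `m` does not occur then `C' m = 0`. It is convenient to write the sum over `i, i'` with `N i ≠ N i'` as a double sum over `m, m'` of `C' m * C' m' * (if m = m' then 0 else μ m m')`, and to bound
   `|(if m = m' then 0 else μ m m')| ≤ Q` when both occur.)
3. `L i i' = g` if `N i ≠ N i'`, `i, i' ≤ k` (`Nc_ne`, `hwg`, `hL1`, `hL2`, `hLs`). So `∑_(N i = N i') b b' (ell - L) = ell ∑ (C' m)^2 - ∑_(all) b b' L + g ∑_(N i ≠ N i') b b'`, and `∑_(N i ≠ N i') b b' = (∑ b)^2 - ∑ (C' m)^2 = - ∑ (C' m)^2`.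
   So it is `(ell - g) ∑ (C' m)^2 - ∑∑ b b' L ≥ - ∑∑ b b' L ≥ Y / k^2` (`ult`).
4. `∑ (C' m)^2 ≤ 4 Z` (`clu`), `g Z ≤ Y` (a cut has `w l = g`, and the other terms are `≥ 0`), `X * (32 k^3 C) ≤ Y`.
   Total: `≥ Y/k^2 - 4 (k+1) Q Z - 4 k C X ≥ Y/k^2 - Y/(4 k^2) - Y/(8 k^2) ≥ Y/(2 k^2)`.
-/

namespace Pool.Agent.Lib.MP_ec260d_ntD.VG

open Complex Set Filter Topology MeasureTheory
open Pool.Agent.Lib.MP_ec260d_ntB

private theorem vabs_fib (k : ℕ) (b : ℕ → ℝ) (N : ℕ → ℕ) (hN : ∀ i ∈ Finset.range (k + 1), N i ∈ Finset.range (k + 1))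
    (F : ℕ → ℝ) : ∑ i ∈ Finset.range (k + 1), b i * F (N i) =
      ∑ m ∈ Finset.range (k + 1), (∑ i ∈ Finset.range (k + 1), if N i = m then b i else 0) * F m := by
  have h1 : ∀ m ∈ Finset.range (k + 1), (∑ i ∈ Finset.range (k + 1), if N i = m then b i else 0) * F m =
      ∑ i ∈ Finset.range (k + 1), (if N i = m then b i * F m else 0) := by
    intro m _
    rw [Finset.sum_mul]
    refine Finset.sum_congr rfl fun i _ => ?_
    split_ifs
    · rfl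
    · rw [zero_mul]
  rw [Finset.sum_congr rfl h1, Finset.sum_comm]
  refine Finset.sum_congr rfl fun i hi => ?_
  rw [Finset.sum_ite_eq, if_pos (hN i hi)]

private theorem vabs_fib2 (k : ℕ) (b : ℕ → ℝ) (N : ℕ → ℕ) (hN : ∀ i ∈ Finset.range (k + 1), N i ∈ Finset.range (k + 1))
    (F : ℕ → ℕ → ℝ) : ∑ i ∈ Finset.range (k + 1), ∑ i' ∈ Finset.range (k + 1), b i * b i' * F (N i) (N i') =
      ∑ m ∈ Finset.range (k + 1), ∑ m' ∈ Finset.range (k + 1),
        (∑ i ∈ Finset.range (k + 1), if N i = m then b i else 0) *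
        (∑ i ∈ Finset.range (k + 1), if N i = m' then b i else 0) * F m m' := by
  have h1 : ∀ i ∈ Finset.range (k + 1), ∑ i' ∈ Finset.range (k + 1), b i * b i' * F (N i) (N i') =
      b i * ∑ m' ∈ Finset.range (k + 1), (∑ i ∈ Finset.range (k + 1), if N i = m' then b i else 0) * F (N i) m' := by
    intro i _
    rw [← vabs_fib k b N hN (fun m' => F (N i) m'), Finset.mul_sum]
    refine Finset.sum_congr rfl fun i' _ => ?_
    ring
  rw [Finset.sum_congr rfl h1, vabs_fib k b N hN (fun m => ∑ m' ∈ Finset.range (k + 1),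
    (∑ i ∈ Finset.range (k + 1), if N i = m' then b i else 0) * F m m')]
  refine Finset.sum_congr rfl fun m _ => ?_
  rw [Finset.mul_sum]
  refine Finset.sum_congr rfl fun m' _ => ?_
  ring

private theorem vabs_quad (s : Finset ℕ) (b : ℕ → ℝ) (u v : ℕ → ℕ → ℝ) (C : ℝ)
    (h : ∀ i ∈ s, ∀ i' ∈ s, |u i i' - v i i'| ≤ C) :
    (∑ i ∈ s, ∑ i' ∈ s, b i * b i' * v i i') - C * (∑ i ∈ s, |b i|) ^ 2 ≤
      ∑ i ∈ s, ∑ i' ∈ s, b i * b i' * u i i' := by
  have e : C * (∑ i ∈ s, |b i|) ^ 2 = ∑ i ∈ s, ∑ i' ∈ s, |b i| * |b i'| * C := by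
    rw [sq, Finset.sum_mul_sum, mul_comm C, Finset.sum_mul]
    refine Finset.sum_congr rfl fun i _ => ?_
    rw [Finset.sum_mul]
  rw [e, ← Finset.sum_sub_distrib]
  refine Finset.sum_le_sum fun i hi => ?_
  rw [← Finset.sum_sub_distrib]
  refine Finset.sum_le_sum fun i' hi' => ?_
  have h1 : |b i * b i' * (u i i' - v i i')| ≤ |b i| * |b i'| * C := by
    rw [abs_mul, abs_mul]
    exact mul_le_mul_of_nonneg_left (h i hi i' hi') (by positivity)
  have h2 := (abs_le.1 h1).1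
  linarith [mul_sub (b i * b i') (u i i') (v i i')]

private theorem vabs_l1 (k : ℕ) (b : ℕ → ℝ) (hb : ∑ i ∈ Finset.range (k + 1), b i = 0) :
    (∑ i ∈ Finset.range (k + 1), |b i|) ^ 2 ≤
      4 * k * ∑ l ∈ Finset.range k, (∑ i ∈ Finset.range (l + 1), b i) ^ 2 := by
  set B : ℕ → ℝ := fun l => ∑ i ∈ Finset.range (l + 1), b i with hB
  have hb0 : b 0 = B 0 := by rw [hB]; simp
  have hb1 : ∀ i, b (i + 1) = B (i + 1) - B i := by
    intro i
    rw [hB]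
    simp only
    rw [Finset.sum_range_succ _ (i + 1)]
    ring
  have hBk : B k = 0 := hb
  have h1 : ∑ i ∈ Finset.range (k + 1), |b i| ≤ 2 * ∑ i ∈ Finset.range k, |B i| := by
    have h2 : ∑ i ∈ Finset.range (k + 1), |b i| =
        ∑ i ∈ Finset.range k, |b (i + 1)| + |b 0| := Finset.sum_range_succ' _ _
    have h3 : ∑ i ∈ Finset.range k, |b (i + 1)| ≤
        ∑ i ∈ Finset.range k, |B (i + 1)| + ∑ i ∈ Finset.range k, |B i| := by
      rw [← Finset.sum_add_distrib]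
      refine Finset.sum_le_sum fun i _ => ?_
      rw [hb1 i]
      exact abs_sub _ _
    have h4 : ∑ i ∈ Finset.range k, |B (i + 1)| + |B 0| = ∑ i ∈ Finset.range k, |B i| := by
      rw [← Finset.sum_range_succ' (fun i => |B i|), Finset.sum_range_succ, hBk, abs_zero, add_zero]
    rw [hb0] at h2
    linarith
  have h0 : 0 ≤ ∑ i ∈ Finset.range (k + 1), |b i| := Finset.sum_nonneg fun i _ => abs_nonneg _
  have h6 : (∑ i ∈ Finset.range (k + 1), |b i|) ^ 2 ≤ (2 * ∑ i ∈ Finset.range k, |B i|) ^ 2 :=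
    pow_le_pow_left₀ h0 h1 2
  have h7 : (∑ i ∈ Finset.range k, |B i|) ^ 2 ≤ k * ∑ i ∈ Finset.range k, B i ^ 2 := by
    have h8 := sq_sum_le_card_mul_sum_sq (s := Finset.range k) (f := fun i => |B i|)
    rw [Finset.card_range] at h8
    simpa [sq_abs] using h8
  calc (∑ i ∈ Finset.range (k + 1), |b i|) ^ 2 ≤ (2 * ∑ i ∈ Finset.range k, |B i|) ^ 2 := h6
    _ = 4 * (∑ i ∈ Finset.range k, |B i|) ^ 2 := by ring
    _ ≤ 4 * (k * ∑ i ∈ Finset.range k, B i ^ 2) := by linarith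
    _ = 4 * k * ∑ i ∈ Finset.range k, B i ^ 2 := by ring

theorem vabs (k : ℕ) (hk : 1 ≤ k) (b w : ℕ → ℝ) (L lam : ℕ → ℕ → ℝ) (g ell C Q : ℝ)
    (hC : 0 ≤ C) (hQ : 0 ≤ Q) (hg0 : 0 ≤ g) (hg : g ≤ ell) (hw0 : ∀ l < k, 0 ≤ w l)
    (hw : ∀ l < k, 32 * (k : ℝ) ^ 3 * C ≤ w l) (hwg : ∀ l < k, w l ≤ g)
    (hQg : 16 * (k : ℝ) ^ 2 * ((k : ℝ) + 1) * Q ≤ g)
    (hb : ∑ i ∈ Finset.range (k + 1), b i = 0)
    (hL0 : ∀ i, L i i = 0) (hLs : ∀ i i', L i i' = L i' i)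
    (hL1 : ∀ i i' l : ℕ, i ≤ l → l < i' → i' ≤ k → w l ≤ L i i')
    (hL2 : ∀ i i' : ℕ, i < i' → i' ≤ k → ∃ l, i ≤ l ∧ l < i' ∧ L i i' = w l)
    (hn : ∀ i i' : ℕ, i ≤ k → i' ≤ k → Nc w g i = Nc w g i' → |lam i i' - (ell - L i i')| ≤ C)
    (hf : ∀ i i' : ℕ, i ≤ k → i' ≤ k → Nc w g i ≠ Nc w g i' → |lam i i'| ≤ Q)
    (hv : ∀ i i' j j' : ℕ, i ≤ k → i' ≤ k → j ≤ k → j' ≤ k → Nc w g i ≠ Nc w g i' →
      Nc w g j = Nc w g i → Nc w g j' = Nc w g i' → |lam i i' - lam j j'| ≤ C) :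
    1 / (2 * (k : ℝ) ^ 2) * ∑ l ∈ Finset.range k, (∑ i ∈ Finset.range (l + 1), b i) ^ 2 * w l ≤
      ∑ i ∈ Finset.range (k + 1), ∑ i' ∈ Finset.range (k + 1), b i * b i' * lam i i' := by
  classical
  have hk1 : (1 : ℝ) ≤ k := by exact_mod_cast hk
  have hk0 : (0 : ℝ) < k := by linarith
  obtain ⟨N, hNd⟩ : ∃ N : ℕ → ℕ, N = Nc w g := ⟨_, rfl⟩
  have hNk : ∀ i ∈ Finset.range (k + 1), N i ∈ Finset.range (k + 1) := by
    intro i hi
    rw [Finset.mem_range] at hi ⊢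
    have := Nc_le w g i
    rw [hNd]
    omega
  have hr : ∀ m : ℕ, ∃ r : ℕ, r ≤ k ∧ ((∃ i, i ≤ k ∧ N i = m) → N r = m) := by
    intro m
    by_cases h : ∃ i, i ≤ k ∧ N i = m
    · obtain ⟨i, hi, hm⟩ := h
      exact ⟨i, hi, fun _ => hm⟩
    · exact ⟨0, Nat.zero_le _, fun h' => absurd h' h⟩
  choose r hr1 hr2 using hr
  obtain ⟨mu, hmud⟩ : ∃ mu : ℕ → ℕ → ℝ, mu = fun m m' => if m ≠ m' ∧ (∃ i, i ≤ k ∧ N i = m) ∧
    (∃ i, i ≤ k ∧ N i = m') then lam (r m) (r m') else 0 := ⟨_, rfl⟩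
  have hmu : ∀ m m', |mu m m'| ≤ Q := by
    intro m m'
    rw [hmud]
    simp only
    split_ifs with h
    · refine hf _ _ (hr1 m) (hr1 m') ?_
      rw [← hNd, hr2 m h.2.1, hr2 m' h.2.2]
      exact h.1
    · rw [abs_zero]; exact hQ
  have hmu0 : ∀ m, mu m m = 0 := by
    intro m
    rw [hmud]
    simp
  -- step 1
  have s1 := vabs_quad (Finset.range (k + 1)) b lam
    (fun i i' => (if N i = N i' then ell - L i i' else 0) + mu (N i) (N i')) C ?_
  swap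
  · intro i hi i' hi'
    have hi1 : i ≤ k := by rw [Finset.mem_range] at hi; omega
    have hi2 : i' ≤ k := by rw [Finset.mem_range] at hi'; omega
    by_cases h : N i = N i'
    · rw [if_pos h, h, hmu0, add_zero]
      rw [hNd] at h
      exact hn i i' hi1 hi2 h
    · rw [if_neg h, zero_add]
      have h2 : mu (N i) (N i') = lam (r (N i)) (r (N i')) := by
        rw [hmud]
        simp only
        rw [if_pos ⟨h, ⟨i, hi1, rfl⟩, ⟨i', hi2, rfl⟩⟩]
      rw [h2]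
      have h3 := hr2 (N i) ⟨i, hi1, rfl⟩
      have h4 := hr2 (N i') ⟨i', hi2, rfl⟩
      have h5 := hr1 (N i)
      have h6 := hr1 (N i')
      exact hv i i' _ _ hi1 hi2 h5 h6 (by rw [hNd] at h; exact h) (by rw [← hNd]; exact h3) (by rw [← hNd]; exact h4)
  -- step 2
  obtain ⟨Cm, hCm⟩ : ∃ Cm : ℕ → ℝ, Cm = fun m => ∑ i ∈ Finset.range (k + 1), if N i = m then b i else 0 := ⟨_, rfl⟩
  obtain ⟨S, hS⟩ : ∃ S : ℝ, S = ∑ m ∈ Finset.range (k + 1), Cm m ^ 2 := ⟨_, rfl⟩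
  have hS0 : 0 ≤ S := by rw [hS]; exact Finset.sum_nonneg fun m _ => sq_nonneg _
  have s2 : -(Q * ((k : ℝ) + 1) * S) ≤
      ∑ i ∈ Finset.range (k + 1), ∑ i' ∈ Finset.range (k + 1), b i * b i' * mu (N i) (N i') := by
    rw [vabs_fib2 k b N hNk mu]
    have h1 := vabs_quad (Finset.range (k + 1)) Cm mu (fun _ _ => 0) Q (fun m _ m' _ => by
      rw [sub_zero]; exact hmu m m')
    have h2 : (∑ m ∈ Finset.range (k + 1), |Cm m|) ^ 2 ≤ ((k : ℝ) + 1) * S := by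
      have h8 := sq_sum_le_card_mul_sum_sq (s := Finset.range (k + 1)) (f := fun i => |Cm i|)
      rw [Finset.card_range] at h8
      rw [hS]
      push_cast at h8
      simpa [sq_abs] using h8
    have h3 : Q * (∑ m ∈ Finset.range (k + 1), |Cm m|) ^ 2 ≤ Q * (((k : ℝ) + 1) * S) :=
      mul_le_mul_of_nonneg_left h2 hQ
    simp only [mul_zero, Finset.sum_const_zero, zero_sub] at h1
    rw [hCm] at h1 h3
    simp only at h1 h3
    linarith
  -- step 3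
  have hLg : ∀ i i' : ℕ, i ≤ k → i' ≤ k → N i ≠ N i' → L i i' = g := by
    have key : ∀ a c : ℕ, a ≤ c → c ≤ k → N a ≠ N c → L a c = g := by
      intro a c hac hck hN
      rw [hNd] at hN
      obtain ⟨l, h1, h2, h3⟩ := Nc_ne w g hac hN
      have hac' : a < c := lt_of_le_of_lt h1 h2
      obtain ⟨l', h4, h5, h6⟩ := hL2 a c hac' hck
      have h7 := hL1 a c l h1 h2 hck
      have h8 := hwg l' (by omega)
      rw [h6] at h7 ⊢
      linarith
    intro i i' hi hi' hN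
    rcases le_total i i' with h | h
    · exact key i i' h hi' hN
    · rw [hLs]
      exact key i' i h hi (Ne.symm hN)
  have s3 : ∑ i ∈ Finset.range (k + 1), ∑ i' ∈ Finset.range (k + 1), b i * b i' *
      (if N i = N i' then ell - L i i' else 0) = (ell - g) * S -
        ∑ i ∈ Finset.range (k + 1), ∑ i' ∈ Finset.range (k + 1), b i * b i' * L i i' := by
    obtain ⟨F, hF⟩ : ∃ F : ℕ → ℕ → ℝ, F = fun m m' : ℕ => if m = m' then (1 : ℝ) else 0 := ⟨_, rfl⟩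
    have hFe : ∀ m m' : ℕ, F m m' = if m = m' then (1 : ℝ) else 0 := fun m m' => by rw [hF]
    have h1 : ∑ i ∈ Finset.range (k + 1), ∑ i' ∈ Finset.range (k + 1), b i * b i' * F (N i) (N i') = S := by
      rw [vabs_fib2 k b N hNk F, hS]
      refine Finset.sum_congr rfl fun m hm => ?_
      rw [Finset.sum_eq_single m]
      · rw [hFe, if_pos rfl, mul_one, hCm, sq]
      · intro m' _ hne
        rw [hFe, if_neg (Ne.symm hne), mul_zero]
      · intro h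
        exact absurd hm h
    have h2 : ∑ i ∈ Finset.range (k + 1), ∑ i' ∈ Finset.range (k + 1), b i * b i' * g = 0 := by
      have : ∑ i ∈ Finset.range (k + 1), ∑ i' ∈ Finset.range (k + 1), b i * b i' * g =
          (∑ i ∈ Finset.range (k + 1), b i) * (∑ i ∈ Finset.range (k + 1), b i) * g := by
        rw [Finset.sum_mul_sum, Finset.sum_mul]
        refine Finset.sum_congr rfl fun i _ => ?_
        rw [Finset.sum_mul]
      rw [this, hb, zero_mul, zero_mul]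
    have h3 : ∑ i ∈ Finset.range (k + 1), ∑ i' ∈ Finset.range (k + 1), b i * b i' *
        (if N i = N i' then ell - L i i' else 0) =
        (ell - g) * (∑ i ∈ Finset.range (k + 1), ∑ i' ∈ Finset.range (k + 1), b i * b i' * F (N i) (N i')) +
        (∑ i ∈ Finset.range (k + 1), ∑ i' ∈ Finset.range (k + 1), b i * b i' * g) -
        ∑ i ∈ Finset.range (k + 1), ∑ i' ∈ Finset.range (k + 1), b i * b i' * L i i' := by
      rw [Finset.mul_sum, ← Finset.sum_add_distrib, ← Finset.sum_sub_distrib]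
      refine Finset.sum_congr rfl fun i hi => ?_
      rw [Finset.mul_sum, ← Finset.sum_add_distrib, ← Finset.sum_sub_distrib]
      refine Finset.sum_congr rfl fun i' hi' => ?_
      have hi1 : i ≤ k := by rw [Finset.mem_range] at hi; omega
      have hi2 : i' ≤ k := by rw [Finset.mem_range] at hi'; omega
      by_cases h : N i = N i'
      · rw [hFe, if_pos h, if_pos h]
        ring
      · rw [hFe, if_neg h, if_neg h, hLg i i' hi1 hi2 h]
        ring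
    rw [h3, h1, h2]
    ring
  have s4 := ult k b w L hb hw0 hL0 hLs hL1 hL2
  have s5 := clu k b w g hb
  have s6 := vabs_l1 k b hb
  obtain ⟨B, hB⟩ : ∃ B : ℕ → ℝ, B = fun l => ∑ i ∈ Finset.range (l + 1), b i := ⟨_, rfl⟩
  obtain ⟨X, hX⟩ : ∃ X : ℝ, X = ∑ l ∈ Finset.range k, B l ^ 2 := ⟨_, rfl⟩
  obtain ⟨Y, hY⟩ : ∃ Y : ℝ, Y = ∑ l ∈ Finset.range k, B l ^ 2 * w l := ⟨_, rfl⟩
  obtain ⟨Z, hZ⟩ : ∃ Z : ℝ, Z = ∑ l ∈ (Finset.range k).filter (fun l => g ≤ w l), B l ^ 2 := ⟨_, rfl⟩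
  have e4 : 1 / (k : ℝ) ^ 2 * Y ≤
      -∑ i ∈ Finset.range (k + 1), ∑ i' ∈ Finset.range (k + 1), b i * b i' * L i i' := by
    rw [hY, hB]; exact s4
  have e5 : S ≤ 4 * Z := by
    rw [hS, hZ, hCm, hB, hNd]; exact s5
  have e6 : (∑ i ∈ Finset.range (k + 1), |b i|) ^ 2 ≤ 4 * k * X := by
    rw [hX, hB]; exact s6
  have hZ0 : 0 ≤ Z := by rw [hZ]; exact Finset.sum_nonneg fun l _ => sq_nonneg _
  have e7 : g * Z ≤ Y := by
    rw [hZ, hY, Finset.mul_sum]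
    refine le_trans ?_ (Finset.sum_le_sum_of_subset_of_nonneg (Finset.filter_subset (fun l => g ≤ w l) _)
      (fun l hl _ => mul_nonneg (sq_nonneg _) (hw0 l (Finset.mem_range.1 hl))))
    refine Finset.sum_le_sum fun l hl => ?_
    rw [mul_comm]
    exact mul_le_mul_of_nonneg_left (Finset.mem_filter.1 hl).2 (sq_nonneg _)
  have e8 : 32 * (k : ℝ) ^ 3 * C * X ≤ Y := by
    rw [hX, hY, Finset.mul_sum]
    refine Finset.sum_le_sum fun l hl => ?_
    rw [mul_comm]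
    exact mul_le_mul_of_nonneg_left (hw l (Finset.mem_range.1 hl)) (sq_nonneg _)
  have goalL : 1 / (2 * (k : ℝ) ^ 2) * ∑ l ∈ Finset.range k, (∑ i ∈ Finset.range (l + 1), b i) ^ 2 * w l =
      1 / (2 * (k : ℝ) ^ 2) * Y := by
    rw [hY, hB]
  rw [goalL]
  refine le_trans ?_ s1
  have e9 : ∑ i ∈ Finset.range (k + 1), ∑ i' ∈ Finset.range (k + 1), b i * b i' *
      (fun i i' => (if N i = N i' then ell - L i i' else 0) + mu (N i) (N i')) i i' =
      (∑ i ∈ Finset.range (k + 1), ∑ i' ∈ Finset.range (k + 1), b i * b i' *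
        (if N i = N i' then ell - L i i' else 0)) +
      ∑ i ∈ Finset.range (k + 1), ∑ i' ∈ Finset.range (k + 1), b i * b i' * mu (N i) (N i') := by
    rw [← Finset.sum_add_distrib]
    refine Finset.sum_congr rfl fun i _ => ?_
    rw [← Finset.sum_add_distrib]
    refine Finset.sum_congr rfl fun i' _ => ?_
    simp only
    ring
  rw [e9, s3]
  have e10 : 0 ≤ (ell - g) * S := mul_nonneg (by linarith) hS0
  have e11 : C * (∑ i ∈ Finset.range (k + 1), |b i|) ^ 2 ≤ C * (4 * k * X) :=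
    mul_le_mul_of_nonneg_left e6 hC
  have e12 : C * (4 * k * X) ≤ 1 / (8 * (k : ℝ) ^ 2) * Y := by
    have : C * (4 * k * X) = 1 / (8 * (k : ℝ) ^ 2) * (32 * (k : ℝ) ^ 3 * C * X) := by
      field_simp
      ring
    rw [this]
    exact mul_le_mul_of_nonneg_left e8 (by positivity)
  have e13 : Q * ((k : ℝ) + 1) * S ≤ 1 / (4 * (k : ℝ) ^ 2) * Y := by
    have h1 : Q * ((k : ℝ) + 1) * S ≤ Q * ((k : ℝ) + 1) * (4 * Z) :=
      mul_le_mul_of_nonneg_left e5 (by positivity)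
    have h2 : Q * ((k : ℝ) + 1) * (4 * Z) =
        1 / (4 * (k : ℝ) ^ 2) * ((16 * (k : ℝ) ^ 2 * ((k : ℝ) + 1) * Q) * Z) := by
      field_simp
      ring
    have h3 : (16 * (k : ℝ) ^ 2 * ((k : ℝ) + 1) * Q) * Z ≤ g * Z := mul_le_mul_of_nonneg_right hQg hZ0
    have h4 : 1 / (4 * (k : ℝ) ^ 2) * ((16 * (k : ℝ) ^ 2 * ((k : ℝ) + 1) * Q) * Z) ≤ 1 / (4 * (k : ℝ) ^ 2) * Y :=
      mul_le_mul_of_nonneg_left (h3.trans e7) (by positivity)
    linarith
  have e14 : 0 ≤ Y := by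
    rw [hY]
    exact Finset.sum_nonneg fun l hl => mul_nonneg (sq_nonneg _) (hw0 l (Finset.mem_range.1 hl))
  have e15 : 1 / (2 * (k : ℝ) ^ 2) * Y ≤ 1 / (k : ℝ) ^ 2 * Y - 1 / (8 * (k : ℝ) ^ 2) * Y - 1 / (4 * (k : ℝ) ^ 2) * Y := by
    have h1 : 1 / (k : ℝ) ^ 2 * Y - 1 / (8 * (k : ℝ) ^ 2) * Y - 1 / (4 * (k : ℝ) ^ 2) * Y - 1 / (2 * (k : ℝ) ^ 2) * Y =
        1 / (8 * (k : ℝ) ^ 2) * Y := by
      field_simp
      ring
    have h2 : 0 ≤ 1 / (8 * (k : ℝ) ^ 2) * Y := by positivity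
    linarith
  linarith

end Pool.Agent.Lib.MP_ec260d_ntD.VG
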