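import Mathlib
import Pool.Agent.Lib.MP_ec260d_ntD.L.IL
import Pool.Agent.Lib.MP_ec260d_ntD.V.VDefs

/-!
# VForm: the variance as a quadratic form in `b`

`x l = ζ l` for `l < k`, `x l = 0` for `l ≥ k`; `b 0 = - x 0`, `b (i+1) = x i - x (i+1)`. Then `∑_(i ≤ l) b i = - x l` for all `l` (so the sum over `i ≤ k` is `0`).
For every class `c` and prime `p`, with `z i = (if ex cl i = c then zt (ex al i) p else 0)` (`i ≤ k`):
`∑_(i : Fin k) ζ i ((if cl i.succ = c then zt (al i.succ) p else 0) - (if cl i.castSucc = c then zt (al i.castSucc) p else 0)) = ∑_(i<k) x i (z (i+1) - z i) = ∑_(i ≤ k) b i z i`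
(`cvar_abel` in Lib/MP_ec260d_ntB/CVar.lean, private: copy; `ex_eq`).
The square of the norm is (`cvar_norm` of CVar.lean: copy, with `b i` replaced by `b i` if `ex cl i = c` and `0` otherwise) `∑∑_(i,i' : ex cl i = c, ex cl i' = c) b i b i' cos ((ex al i - ex al i') log p)`; sum over `c : Fin (k+1)`: only `c = ex cl i` contributes, and this requires
`ex cl i = ex cl i'`. Sum over `p` in the blocks: `blocks_sum` of CPb.lean; exchange the sums. (`p ^ (-(1 + 2W/l)) = p ^ (-1 - 2W/l)`.)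
-/

namespace Pool.Agent.Lib.MP_ec260d_ntD.VG

open Complex Set Filter Topology MeasureTheory
open Pool.Agent.Lib.MP_ec260d_ntB

private theorem vform_norm (s : Finset ℕ) (b θ : ℕ → ℝ) :
    ‖∑ i ∈ s, ((b i : ℝ) : ℂ) * cexp (-((θ i : ℝ) : ℂ) * I)‖ ^ 2 =
      ∑ i ∈ s, ∑ i' ∈ s, b i * b i' * Real.cos (θ i - θ i') := by
  have e : ∀ i, cexp (-((θ i : ℝ) : ℂ) * I) =
      ((Real.cos (θ i) : ℝ) : ℂ) + ((-Real.sin (θ i) : ℝ) : ℂ) * I := by
    intro i
    rw [← Complex.ofReal_neg, Complex.exp_mul_I, ← Complex.ofReal_cos, ← Complex.ofReal_sin,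
      Real.cos_neg, Real.sin_neg]
  have hs : (∑ i ∈ s, ((b i : ℝ) : ℂ) * cexp (-((θ i : ℝ) : ℂ) * I)) =
      ((∑ i ∈ s, b i * Real.cos (θ i) : ℝ) : ℂ) + ((∑ i ∈ s, b i * (-Real.sin (θ i)) : ℝ) : ℂ) * I := by
    rw [Complex.ofReal_sum, Complex.ofReal_sum, Finset.sum_mul, ← Finset.sum_add_distrib]
    refine Finset.sum_congr rfl fun i _ => ?_
    rw [e i, Complex.ofReal_mul, Complex.ofReal_mul]
    ring
  rw [hs, Complex.sq_norm, Complex.normSq_add_mul_I, sq, sq, Finset.sum_mul_sum,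
    Finset.sum_mul_sum, ← Finset.sum_add_distrib]
  refine Finset.sum_congr rfl fun i _ => ?_
  rw [← Finset.sum_add_distrib]
  refine Finset.sum_congr rfl fun i' _ => ?_
  rw [Real.cos_sub]
  ring

private theorem vform_abel (x : ℕ → ℝ) (z : ℕ → ℂ) (b : ℕ → ℝ) (hb0 : b 0 = -x 0)
    (hb : ∀ i, b (i + 1) = x i - x (i + 1)) (m : ℕ) :
    ∑ i ∈ Finset.range m, ((x i : ℝ) : ℂ) * (z (i + 1) - z i) =
      (∑ i ∈ Finset.range (m + 1), ((b i : ℝ) : ℂ) * z i) + ((x m : ℝ) : ℂ) * z m := by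
  induction m with
  | zero =>
    rw [Finset.sum_range_zero, Finset.sum_range_one, hb0, Complex.ofReal_neg]
    ring
  | succ m ih =>
    rw [Finset.sum_range_succ, ih, Finset.sum_range_succ _ (m + 1), hb m, Complex.ofReal_sub]
    ring

private theorem vform_B (x : ℕ → ℝ) (b : ℕ → ℝ) (hb0 : b 0 = -x 0)
    (hb : ∀ i, b (i + 1) = x i - x (i + 1)) (m : ℕ) :
    ∑ i ∈ Finset.range (m + 1), b i = -x m := by
  induction m with
  | zero => rw [Finset.sum_range_one, hb0]
  | succ m ih =>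
    rw [Finset.sum_range_succ, ih, hb m]
    ring

private theorem vform_c {k : ℕ} (cl : Fin (k + 1) → Fin (k + 1)) (al : Fin (k + 1) → ℝ)
    (ζ : Fin k → ℝ) (x b : ℕ → ℝ) (hx : ∀ i : Fin k, x i = ζ i) (hxk : x k = 0) (hb0 : b 0 = -x 0)
    (hb : ∀ i, b (i + 1) = x i - x (i + 1)) (p : ℕ) (c : Fin (k + 1)) :
    ‖∑ i : Fin k, ((ζ i : ℝ) : ℂ) * ((if cl i.succ = c then zt (al i.succ) p else 0) -
      (if cl i.castSucc = c then zt (al i.castSucc) p else 0))‖ ^ 2 =
      ∑ i ∈ Finset.range (k + 1), ∑ i' ∈ Finset.range (k + 1),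
        (if ex cl i = c then b i else 0) * (if ex cl i' = c then b i' else 0) *
          Real.cos (ex al i * Real.log p - ex al i' * Real.log p) := by
  have e1 : (∑ i : Fin k, ((ζ i : ℝ) : ℂ) * ((if cl i.succ = c then zt (al i.succ) p else 0) -
      (if cl i.castSucc = c then zt (al i.castSucc) p else 0))) =
      ∑ i ∈ Finset.range (k + 1), (((if ex cl i = c then b i else 0 : ℝ) : ℝ) : ℂ) *
        cexp (-((ex al i * Real.log p : ℝ) : ℂ) * I) := by
    have h1 := vform_abel x (fun i => if ex cl i = c then zt (ex al i) p else 0) b hb0 hb k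
    rw [hxk, Complex.ofReal_zero, zero_mul, add_zero] at h1
    have h2 : (∑ i ∈ Finset.range (k + 1), ((b i : ℝ) : ℂ) *
        (if ex cl i = c then zt (ex al i) p else 0)) =
        ∑ i ∈ Finset.range (k + 1), (((if ex cl i = c then b i else 0 : ℝ) : ℝ) : ℂ) *
        cexp (-((ex al i * Real.log p : ℝ) : ℂ) * I) := by
      refine Finset.sum_congr rfl fun i _ => ?_
      by_cases hc : ex cl i = c
      · rw [if_pos hc, if_pos hc]
        rfl
      · rw [if_neg hc, if_neg hc, mul_zero, Complex.ofReal_zero, zero_mul]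
    rw [← h2, ← h1, Finset.sum_range]
    refine Finset.sum_congr rfl fun i _ => ?_
    have a1 : ex cl ((i : ℕ) + 1) = cl i.succ := ex_eq cl i.succ
    have a2 : ex cl (i : ℕ) = cl i.castSucc := ex_eq cl i.castSucc
    have a3 : ex al ((i : ℕ) + 1) = al i.succ := ex_eq al i.succ
    have a4 : ex al (i : ℕ) = al i.castSucc := ex_eq al i.castSucc
    rw [hx i, a1, a2, a3, a4]
  rw [e1, vform_norm]

private theorem vform_sum {k : ℕ} (u v : Fin (k + 1)) (r s : ℝ) :
    ∑ c : Fin (k + 1), (if u = c then r else 0) * (if v = c then s else 0) =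
      if u = v then r * s else 0 := by
  rw [Finset.sum_eq_single u]
  · rw [if_pos rfl]
    by_cases h : v = u
    · rw [if_pos h, if_pos h.symm]
    · rw [if_neg h, if_neg (Ne.symm h), mul_zero]
  · intro c _ hc
    rw [if_neg (Ne.symm hc), zero_mul]
  · intro h
    exact absurd (Finset.mem_univ u) h

theorem vfd_eq (δ W T : ℝ) (hδ : 0 < δ) (hδ1 : δ ≤ 1) (hT3 : 3 ≤ T) {k : ℕ}
    (cl : Fin (k + 1) → Fin (k + 1)) (al : Fin (k + 1) → ℝ) (ζ : Fin k → ℝ) :
    ∃ b : ℕ → ℝ, (∑ i ∈ Finset.range (k + 1), b i = 0) ∧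
      (∀ l : Fin k, ∑ i ∈ Finset.range ((l : ℕ) + 1), b i = -ζ l) ∧
      VFD δ W T cl al ζ = ∑ i ∈ Finset.range (k + 1), ∑ i' ∈ Finset.range (k + 1), b i * b i' * lamN δ W T cl al i i' := by
  let x : ℕ → ℝ := fun l => if h : l < k then ζ ⟨l, h⟩ else 0
  have hx : ∀ i : Fin k, x i = ζ i := fun i => dif_pos i.2
  have hxk : x k = 0 := dif_neg (lt_irrefl k)
  let b : ℕ → ℝ := fun i => match i with
    | 0 => -x 0
    | i + 1 => x i - x (i + 1)
  have hb0 : b 0 = -x 0 := rfl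
  have hb : ∀ i, b (i + 1) = x i - x (i + 1) := fun _ => rfl
  refine ⟨b, ?_, ?_, ?_⟩
  · rw [vform_B x b hb0 hb k, hxk, neg_zero]
  · intro l
    rw [vform_B x b hb0 hb l, hx l]
  · have hp : ∀ p : ℕ, (p : ℝ) ^ (-(1 + 2 * W / Real.log T)) *
        ∑ c : Fin (k + 1), ‖∑ i : Fin k, ((ζ i : ℝ) : ℂ) *
          ((if cl i.succ = c then zt (al i.succ) p else 0) -
          (if cl i.castSucc = c then zt (al i.castSucc) p else 0))‖ ^ 2 =
        ∑ i ∈ Finset.range (k + 1), ∑ i' ∈ Finset.range (k + 1), b i * b i' *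
          (if ex cl i = ex cl i' then (p : ℝ) ^ (-1 - 2 * W / Real.log T) *
            Real.cos ((ex al i - ex al i') * Real.log p) else 0) := by
      intro p
      rw [Finset.sum_congr rfl (fun c _ => vform_c cl al ζ x b hx hxk hb0 hb p c),
        Finset.sum_comm, Finset.mul_sum]
      refine Finset.sum_congr rfl fun i _ => ?_
      rw [Finset.sum_comm, Finset.mul_sum]
      refine Finset.sum_congr rfl fun i' _ => ?_
      rw [← Finset.sum_mul, vform_sum, show -(1 + 2 * W / Real.log T) = -1 - 2 * W / Real.log T by ring,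
        ← sub_mul]
      by_cases h : ex cl i = ex cl i'
      · rw [if_pos h, if_pos h]
        ring
      · rw [if_neg h, if_neg h]
        ring
    unfold VFD
    rw [blocks_sum δ T hδ hδ1 hT3 (fun p : ℕ => (p : ℝ) ^ (-(1 + 2 * W / Real.log T)) *
        ∑ c : Fin (k + 1), ‖∑ i : Fin k, ((ζ i : ℝ) : ℂ) *
          ((if cl i.succ = c then zt (al i.succ) p else 0) -
          (if cl i.castSucc = c then zt (al i.castSucc) p else 0))‖ ^ 2),
      Finset.sum_congr rfl (fun p _ => hp p), Finset.sum_comm]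
    refine Finset.sum_congr rfl fun i _ => ?_
    rw [Finset.sum_comm]
    refine Finset.sum_congr rfl fun i' _ => ?_
    rw [← Finset.mul_sum]
    unfold lamN SS PT
    by_cases h : ex cl i = ex cl i'
    · rw [if_pos h, Finset.sum_congr rfl (fun p _ => if_pos h)]
    · rw [if_neg h, Finset.sum_congr rfl (fun p _ => if_neg h), Finset.sum_const_zero]

end Pool.Agent.Lib.MP_ec260d_ntD.VG
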