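import Mathlib
import Pool.Agent.Lib.MP_ec260d_ntB.CCos
import Pool.Agent.Lib.MP_ec260d_ntD.V.VDefs

/-!
# VCos: the covariance of two positions

`l = log T`, `σ = 2W/l` (`≤ 1` for large `T`).
`cos_near` is `cos_sum` of Lib/MP_ec260d_ntB/CCos.lean (with `Cw = C₁`) for `y = hT T * D` (`SS_abs`: `SS` is even).
`cos_far`: `∑_(all p) p^(-1-σ) cos (y log p) = log |ζ(1+σ+iy)| + O(1)` is the private theorem `cz_sum` of Lib/MP_ec260d_ntB/CZ.lean (copy it with its helpers `cz_re`, `cz_norm`, `cz_term`); the primes `≤ 10000` and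
`> T^δ` contribute `O(1)`: exactly as in the proof of `cos_sum` in CCos.lean (copy its private lemmas `ccos_g ... ccos_tail`; `tail_sum` of CPr is public), no restriction on `y` is needed.
-/

namespace Pool.Agent.Lib.MP_ec260d_ntD.VG

open Complex Set Filter Topology MeasureTheory
open Pool.Agent.Lib.MP_ec260d_ntB

theorem cos_near (δ W C₁ : ℝ) (hδ : 0 < δ) (hδ1 : δ ≤ 1) (hW : 1 ≤ W) (hC₁ : 0 < C₁) :
    ∃ C T₀ : ℝ, 0 < C ∧ 3 ≤ T₀ ∧ ∀ T : ℝ, T₀ ≤ T → ∀ y : ℝ, (y = 0 ∨ hT T ≤ |y|) → |y| ≤ hT T * (C₁ * Real.log T) →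
      |SS δ W T y - (Real.log (Real.log T) - Real.log (|y| / hT T))| ≤ C := by
  obtain ⟨C, T₀, hC, hT₀, h⟩ := cos_sum δ W C₁ hδ hδ1 hW hC₁
  refine ⟨C, T₀, hC, hT₀, fun T hTT y hy hy1 => ?_⟩
  have hT3 : 3 ≤ T := hT₀.trans hTT
  have hl : 0 < Real.log T := Real.log_pos (by linarith)
  have hh : 0 < hT T := by
    unfold hT
    positivity
  have h1 : |y| / hT T = 0 ∨ 1 ≤ |y| / hT T := by
    rcases hy with h2 | h2
    · left
      rw [h2, abs_zero, zero_div]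
    · right
      rwa [one_le_div hh]
  have h2 : |y| / hT T ≤ C₁ * Real.log T := by
    rw [div_le_iff₀ hh]
    linarith
  have h3 := h T hTT (|y| / hT T) h1 h2
  rw [mul_div_cancel₀ _ hh.ne'] at h3
  rw [← SS_abs]
  exact h3

private theorem VCosB_cz_re (p : Nat.Primes) (σ τ : ℝ) :
    (((p : ℕ) : ℂ) ^ (-(1 + (σ : ℂ) + (τ : ℂ) * I))).re =
      ((p : ℕ) : ℝ) ^ (-1 - σ) * Real.cos (τ * Real.log ((p : ℕ) : ℝ)) := by
  have hp : (0 : ℝ) < ((p : ℕ) : ℝ) := by exact_mod_cast p.2.pos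
  have hp0 : ((p : ℕ) : ℂ) ≠ 0 := by exact_mod_cast p.2.ne_zero
  rw [Complex.cpow_def_of_ne_zero hp0, ← Complex.natCast_log, Complex.exp_re, Real.rpow_def_of_pos hp]
  have h1 : (((Real.log ((p : ℕ) : ℝ) : ℝ) : ℂ) * -(1 + (σ : ℂ) + (τ : ℂ) * I)).re =
      Real.log ((p : ℕ) : ℝ) * (-1 - σ) := by
    rw [Complex.re_ofReal_mul]
    have h3 : (-(1 + (σ : ℂ) + (τ : ℂ) * I)).re = -1 - σ := by
      simp
      ring
    rw [h3]
  have h2 : (((Real.log ((p : ℕ) : ℝ) : ℝ) : ℂ) * -(1 + (σ : ℂ) + (τ : ℂ) * I)).im =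
      -(τ * Real.log ((p : ℕ) : ℝ)) := by
    rw [Complex.im_ofReal_mul]
    have h3 : (-(1 + (σ : ℂ) + (τ : ℂ) * I)).im = -τ := by simp
    rw [h3]
    ring
  rw [h1, h2, Real.cos_neg]

private theorem VCosB_cz_norm (p : Nat.Primes) (σ τ : ℝ) :
    ‖((p : ℕ) : ℂ) ^ (-(1 + (σ : ℂ) + (τ : ℂ) * I))‖ = ((p : ℕ) : ℝ) ^ (-1 - σ) := by
  rw [Complex.norm_natCast_cpow_of_pos p.2.pos]
  congr 1
  simp
  ring

private theorem VCosB_cz_term {z : ℂ} (hz : ‖z‖ ≤ 1 / 2) : ‖-Complex.log (1 - z) - z‖ ≤ ‖z‖ ^ 2 := by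
  have h := Complex.norm_log_one_add_sub_self_le (z := -z) (by rw [norm_neg]; linarith)
  rw [norm_neg] at h
  have e : -Complex.log (1 - z) - z = -(Complex.log (1 + -z) - -z) := by
    rw [← sub_eq_add_neg]
    ring
  rw [e, norm_neg]
  refine h.trans ?_
  have h1 : (1 - ‖z‖)⁻¹ ≤ 2 := by
    rw [inv_le_comm₀ (by linarith) (by norm_num)]
    linarith
  have h2 : (0 : ℝ) ≤ ‖z‖ ^ 2 := by positivity
  nlinarith

private theorem VCosB_cz_sum (σ τ : ℝ) (hσ : 0 < σ) :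
    |(∑' p : Nat.Primes, ((p : ℕ) : ℝ) ^ (-1 - σ) * Real.cos (τ * Real.log ((p : ℕ) : ℝ))) -
      Real.log ‖riemannZeta (1 + (σ : ℂ) + (τ : ℂ) * I)‖| ≤ ∑' p : Nat.Primes, ((p : ℕ) : ℝ) ^ (-2 : ℝ) := by
  obtain ⟨s, hs⟩ : ∃ s : ℂ, s = 1 + (σ : ℂ) + (τ : ℂ) * I := ⟨_, rfl⟩
  have hre : 1 < s.re := by
    rw [hs]
    simp
    exact hσ
  have hsum0 : Summable fun p : Nat.Primes => ((p : ℕ) : ℝ) ^ (-1 - σ) :=
    Nat.Primes.summable_rpow.2 (by linarith)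
  have hsum2 : Summable fun p : Nat.Primes => ((p : ℕ) : ℝ) ^ (-2 : ℝ) :=
    Nat.Primes.summable_rpow.2 (by norm_num)
  have hz : ∀ p : Nat.Primes, ‖((p : ℕ) : ℂ) ^ (-s)‖ ≤ ((p : ℕ) : ℝ) ^ (-1 : ℝ) := by
    intro p
    rw [hs, VCosB_cz_norm]
    exact Real.rpow_le_rpow_of_exponent_le (by exact_mod_cast p.2.one_le) (by linarith)
  have hz2 : ∀ p : Nat.Primes, ‖((p : ℕ) : ℂ) ^ (-s)‖ ≤ 1 / 2 := by
    intro p
    refine (hz p).trans ?_
    rw [Real.rpow_neg_one, one_div]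
    exact inv_anti₀ (by norm_num) (by exact_mod_cast p.2.two_le)
  have hz3 : ∀ p : Nat.Primes, ‖-Complex.log (1 - ((p : ℕ) : ℂ) ^ (-s)) - ((p : ℕ) : ℂ) ^ (-s)‖ ≤
      ((p : ℕ) : ℝ) ^ (-2 : ℝ) := by
    intro p
    refine (VCosB_cz_term (hz2 p)).trans ?_
    have h1 := hz p
    have hp : (0 : ℝ) ≤ ((p : ℕ) : ℝ) := by positivity
    have h2 : ((p : ℕ) : ℝ) ^ (-2 : ℝ) = (((p : ℕ) : ℝ) ^ (-1 : ℝ)) ^ 2 := by
      rw [← Real.rpow_natCast, ← Real.rpow_mul hp]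
      norm_num
    rw [h2]
    exact pow_le_pow_left₀ (norm_nonneg _) h1 2
  have hsz : Summable fun p : Nat.Primes => ((p : ℕ) : ℂ) ^ (-s) := by
    refine Summable.of_norm ?_
    refine Summable.congr hsum0 fun p => ?_
    rw [hs, VCosB_cz_norm]
  have hsd : Summable fun p : Nat.Primes => -Complex.log (1 - ((p : ℕ) : ℂ) ^ (-s)) - ((p : ℕ) : ℂ) ^ (-s) :=
    Summable.of_norm_bounded hsum2 hz3
  have hsl : Summable fun p : Nat.Primes => -Complex.log (1 - ((p : ℕ) : ℂ) ^ (-s)) :=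
    (hsd.add hsz).congr fun p => by ring
  have hE := riemannZeta_eulerProduct_exp_log hre
  have hlog : Real.log ‖riemannZeta s‖ = (∑' p : Nat.Primes, -Complex.log (1 - ((p : ℕ) : ℂ) ^ (-s))).re := by
    rw [← hE, Complex.norm_exp, Real.log_exp]
  have hcos : (∑' p : Nat.Primes, ((p : ℕ) : ℝ) ^ (-1 - σ) * Real.cos (τ * Real.log ((p : ℕ) : ℝ))) =
      (∑' p : Nat.Primes, ((p : ℕ) : ℂ) ^ (-s)).re := by
    rw [Complex.re_tsum hsz]
    refine tsum_congr fun p => ?_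
    rw [hs, VCosB_cz_re]
  rw [← hs, hcos, hlog, ← Complex.sub_re, ← hsz.tsum_sub hsl]
  refine (Complex.abs_re_le_norm _).trans ?_
  refine tsum_of_norm_bounded hsum2.hasSum fun p => ?_
  rw [← norm_neg, neg_sub]
  exact hz3 p

/-- the summand, extended by zero -/
private noncomputable def VCosB_g (σ τ : ℝ) (n : ℕ) : ℝ :=
  if n.Prime then (n : ℝ) ^ (-1 - σ) * Real.cos (τ * Real.log n) else 0

private theorem VCosB_abs (σ τ : ℝ) (n : ℕ) : |VCosB_g σ τ n| ≤ (n : ℝ) ^ (-1 - σ) := by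
  have h0 : 0 ≤ (n : ℝ) ^ (-1 - σ) := Real.rpow_nonneg (Nat.cast_nonneg n) _
  unfold VCosB_g
  split_ifs
  · rw [abs_mul, abs_of_nonneg h0]
    exact mul_le_of_le_one_right h0 (Real.abs_cos_le_one _)
  · rw [abs_zero]
    exact h0

private theorem VCosB_summable {σ : ℝ} (hσ : 0 < σ) (τ : ℝ) : Summable (VCosB_g σ τ) := by
  refine Summable.of_norm_bounded (g := fun n : ℕ => (n : ℝ) ^ (-1 - σ))
    (Real.summable_nat_rpow.2 (by linarith)) fun n => ?_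
  rw [Real.norm_eq_abs]
  exact VCosB_abs σ τ n

private theorem VCosB_tsum (σ τ : ℝ) :
    (∑' p : Nat.Primes, ((p : ℕ) : ℝ) ^ (-1 - σ) * Real.cos (τ * Real.log ((p : ℕ) : ℝ))) =
      ∑' n : ℕ, VCosB_g σ τ n := by
  have h := tsum_subtype {p : ℕ | p.Prime}
    (fun n : ℕ => (n : ℝ) ^ (-1 - σ) * Real.cos (τ * Real.log n))
  have h2 : ({p : ℕ | p.Prime}.indicator
      fun n : ℕ => (n : ℝ) ^ (-1 - σ) * Real.cos (τ * Real.log n)) = VCosB_g σ τ := by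
    funext n
    unfold VCosB_g
    rw [Set.indicator_apply]
    rfl
  rw [h2] at h
  exact h

/-- the contribution of the primes up to `10000` -/
private theorem VCosB_small {σ : ℝ} (hσ : 0 < σ) (τ : ℝ) (N : ℕ) :
    |∑ i ∈ (Finset.range N).filter (fun p => ¬ (p.Prime ∧ 10000 < p)), VCosB_g σ τ i| ≤ 10001 := by
  refine (Finset.abs_sum_le_sum_abs _ _).trans ?_
  have h1 : ∀ i ∈ (Finset.range N).filter (fun p => ¬ (p.Prime ∧ 10000 < p)),
      |VCosB_g σ τ i| ≤ if i < 10001 then (1 : ℝ) else 0 := by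
    intro i hi
    have hi2 := (Finset.mem_filter.1 hi).2
    by_cases hp : i.Prime
    · have h2 : i < 10001 := by
        by_contra h3
        exact hi2 ⟨hp, by omega⟩
      rw [if_pos h2]
      refine (VCosB_abs σ τ i).trans ?_
      exact Real.rpow_le_one_of_one_le_of_nonpos (by exact_mod_cast hp.one_lt.le) (by linarith)
    · have h2 : VCosB_g σ τ i = 0 := by
        unfold VCosB_g
        rw [if_neg hp]
      rw [h2, abs_zero]
      split_ifs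
      · exact zero_le_one
      · exact le_rfl
  refine (Finset.sum_le_sum h1).trans ?_
  rw [← Finset.sum_filter, Finset.sum_const, nsmul_eq_mul, mul_one]
  have h3 : (((Finset.range N).filter (fun p => ¬ (p.Prime ∧ 10000 < p))).filter
      (fun i => i < 10001)) ⊆ Finset.range 10001 := by
    intro i hi
    exact Finset.mem_range.2 (Finset.mem_filter.1 hi).2
  have h4 := Finset.card_le_card h3
  rw [Finset.card_range] at h4
  exact_mod_cast h4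

/-- the contribution of the large primes -/
private theorem VCosB_tail {σ y C : ℝ} (hσ : 0 < σ) (τ : ℝ) (N : ℕ) (hN : y < N)
    (h : ∀ S : Finset ℕ, (∀ p ∈ S, p.Prime ∧ y < (p : ℝ)) → ∑ p ∈ S, (p : ℝ) ^ (-1 - σ) ≤ C) :
    |∑' i : ℕ, VCosB_g σ τ (i + N)| ≤ C := by
  have hs : Summable fun i : ℕ => ‖VCosB_g σ τ (i + N)‖ :=
    ((summable_nat_add_iff N).2 (VCosB_summable hσ τ)).norm
  rw [← Real.norm_eq_abs]
  refine (norm_tsum_le_tsum_norm hs).trans ?_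
  refine hs.tsum_le_of_sum_le fun s => ?_
  have h1 : ∑ i ∈ s, ‖VCosB_g σ τ (i + N)‖ = ∑ n ∈ s.image (fun i => i + N), ‖VCosB_g σ τ n‖ := by
    rw [Finset.sum_image]
    intro a _ b _ hab
    exact Nat.add_right_cancel hab
  have h2 : ∑ n ∈ s.image (fun i => i + N), ‖VCosB_g σ τ n‖ =
      ∑ n ∈ (s.image (fun i => i + N)).filter (fun n => n.Prime), ‖VCosB_g σ τ n‖ := by
    rw [Finset.sum_filter]
    refine Finset.sum_congr rfl fun n _ => ?_
    split_ifs with hn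
    · rfl
    · unfold VCosB_g
      rw [if_neg hn, norm_zero]
  rw [h1, h2]
  refine le_trans (Finset.sum_le_sum fun n _ => ?_) (h _ ?_)
  · rw [Real.norm_eq_abs]
    exact VCosB_abs σ τ n
  · intro p hp
    obtain ⟨hp1, hp2⟩ := Finset.mem_filter.1 hp
    obtain ⟨i, -, rfl⟩ := Finset.mem_image.1 hp1
    refine ⟨hp2, hN.trans_le ?_⟩
    exact_mod_cast Nat.le_add_left N i

theorem cos_far (δ W : ℝ) (hδ : 0 < δ) (hδ1 : δ ≤ 1) (hW : 1 ≤ W) :
    ∃ C T₀ : ℝ, 0 < C ∧ 3 ≤ T₀ ∧ ∀ T : ℝ, T₀ ≤ T → ∀ y : ℝ,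
      |SS δ W T y - Real.log ‖riemannZeta (((1 + 2 * W / Real.log T : ℝ) : ℂ) + y * I)‖| ≤ C := by
  obtain ⟨C2, hC2, ht⟩ := tail_sum (2 * W * δ) (by positivity)
  have hC1 : (0 : ℝ) ≤ ∑' p : Nat.Primes, ((p : ℕ) : ℝ) ^ (-2 : ℝ) :=
    tsum_nonneg fun p => by positivity
  refine ⟨(∑' p : Nat.Primes, ((p : ℕ) : ℝ) ^ (-2 : ℝ)) + 10001 + C2,
    max 3 (Real.exp (max (2 * W) (1 / δ))), by linarith, le_max_left _ _, ?_⟩
  intro T hTT y
  have hT3 : 3 ≤ T := (le_max_left _ _).trans hTT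
  have hT1 : Real.exp (max (2 * W) (1 / δ)) ≤ T := (le_max_right _ _).trans hTT
  have hT0 : 0 < T := by linarith
  unfold SS PT
  obtain ⟨l, hl⟩ : ∃ l : ℝ, l = Real.log T := ⟨_, rfl⟩
  have hl1 : max (2 * W) (1 / δ) ≤ l := by
    rw [hl]
    exact (Real.le_log_iff_exp_le hT0).2 hT1
  have hl2 : 2 * W ≤ l := (le_max_left _ _).trans hl1
  have hl3 : 1 / δ ≤ l := (le_max_right _ _).trans hl1
  have hl0 : 0 < l := by linarith
  rw [← hl]
  have hσ : 0 < 2 * W / l := div_pos (by linarith) hl0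
  have e1 := VCosB_cz_sum (2 * W / l) y hσ
  rw [VCosB_tsum] at e1
  have hs1 : (1 + ((2 * W / l : ℝ) : ℂ) + (y : ℂ) * I) = ((1 + 2 * W / l : ℝ) : ℂ) + (y : ℂ) * I := by
    rw [Complex.ofReal_add, Complex.ofReal_one]
  rw [hs1] at e1
  obtain ⟨N, hN⟩ : ∃ N : ℕ, N = ⌊Real.exp (δ * l)⌋₊ + 1 := ⟨_, rfl⟩
  rw [← hN]
  have e2 := (VCosB_summable hσ y).sum_add_tsum_nat_add N
  have hδl : 1 ≤ δ * l := by
    rw [div_le_iff₀ hδ] at hl3
    linarith
  have hy2 : 2 ≤ Real.exp (δ * l) := by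
    have h1 := Real.add_one_le_exp (δ * l)
    linarith
  have hNy : Real.exp (δ * l) < (N : ℝ) := by
    rw [hN]
    push_cast
    exact Nat.lt_floor_add_one _
  have e3 := VCosB_tail hσ y N hNy (ht (Real.exp (δ * l)) (2 * W / l) hy2 hσ (by
    rw [Real.log_exp]
    have h1 : 2 * W / l * (δ * l) = 2 * W * δ := by
      field_simp
    rw [h1]))
  have e4 := VCosB_small hσ y N
  have e6 : ∑ p ∈ (Finset.range N).filter (fun p => p.Prime ∧ 10000 < p),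
      (p : ℝ) ^ (-1 - 2 * W / l) * Real.cos (y * Real.log p) =
      ∑ p ∈ (Finset.range N).filter (fun p => p.Prime ∧ 10000 < p),
        VCosB_g (2 * W / l) y p := by
    refine Finset.sum_congr rfl fun p hp => ?_
    unfold VCosB_g
    rw [if_pos (Finset.mem_filter.1 hp).2.1]
  rw [e6]
  have e7 := Finset.sum_filter_add_sum_filter_not (Finset.range N)
    (fun p => p.Prime ∧ 10000 < p) (VCosB_g (2 * W / l) y)
  rw [abs_le] at e1 e3 e4 ⊢
  constructor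
  · linarith [e1.1, e1.2, e3.1, e3.2, e4.1, e4.2]
  · linarith [e1.1, e1.2, e3.1, e3.2, e4.1, e4.2]

end Pool.Agent.Lib.MP_ec260d_ntD.VG
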