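import Mathlib
import Pool.Agent.Lib.MP_ec260d_ntD.V.VDefs

/-!
# VGeo: geometry of the near clusters

Everywhere: `l = log T ≥ 1`, `0 < η ≤ 1/2`, `g = (1 - η) log l`, `h = hT T > 0`, `w = wN T η cl al`, `N = Nc w g`.
`H1`: classes are intervals of indices. `H2`: gaps inside a class are `≥ h` (`M = 1`; `H2` gives `ex al l + h ≤ ex al (l+1)` if `l < k` and `ex cl l = ex cl (l+1)`).

`geo_cl`: for `i ≤ l < i' ≤ k`: `w l < g` by `Nc_eq`, so the second branch in `wN` is impossible: `ex cl l = ex cl (l+1)`; induction on `i'`.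
`geo_in`: `H1` for the indices `i ≤ l ≤ i'` and `i ≤ l+1 ≤ i'`; then `H2`.
`geo_gap`: telescoping: by `geo_in` all differences `ex al (l+1) - ex al l`, `i ≤ l < i'`, are `≥ h`.
`geo_cut`: if moreover `g ≤ w l` for some `i ≤ l < i'`, then (first branch of `wN`, as `ex cl l = ex cl (l+1)`) `min (gap/h) (l^(1-η)) ≥ exp g = l^(1-η)`, so `gap ≥ h l^(1-η)`; telescoping.
`geo_near`: if `N i = N i'`, `i < i' ≤ k`, all gaps between satisfy `w l < g`, so `gap/h < l^(1-η)` and `w l = log (gap/h)`; the largest one is `m = exp (L i i')` (`hL1`, `hL2`);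
`m ≤ (ex al i' - ex al i)/h ≤ k m`, as in the private theorem `cvar_log` of Lib/MP_ec260d_ntB/CVar.lean. And `≤ k l^(1-η)`.
-/

namespace Pool.Agent.Lib.MP_ec260d_ntD.VG

open Complex Set Filter Topology MeasureTheory
open Pool.Agent.Lib.MP_ec260d_ntB

theorem geo_cl {k : ℕ} {T η : ℝ} (cl : Fin (k + 1) → Fin (k + 1)) (al : Fin (k + 1) → ℝ) {i i' : ℕ} (hi : i ≤ i')
    (h : Nc (wN T η cl al) ((1 - η) * Real.log (Real.log T)) i =
      Nc (wN T η cl al) ((1 - η) * Real.log (Real.log T)) i') : ex cl i = ex cl i' := by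
  have key : ∀ l, i ≤ l → l < i' → ex cl l = ex cl (l + 1) := by
    intro l h1 h2
    by_contra hne
    have h3 := Nc_eq _ _ h l h1 h2
    unfold wN at h3
    rw [if_neg hne] at h3
    exact lt_irrefl _ h3
  have ind : ∀ m : ℕ, i + m ≤ i' → ex cl i = ex cl (i + m) := by
    intro m
    induction m with
    | zero => intro _; rfl
    | succ m ih =>
      intro hm
      exact (ih (by omega)).trans (key (i + m) (by omega) (by omega))
  have h4 := ind (i' - i) (by omega)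
  have h5 : i + (i' - i) = i' := by omega
  rw [h5] at h4
  exact h4

theorem geo_in {k : ℕ} {T : ℝ} (cl : Fin (k + 1) → Fin (k + 1)) (al : Fin (k + 1) → ℝ)
    (H1 : ∀ i i' i'' : Fin (k + 1), i ≤ i' → i' ≤ i'' → cl i = cl i'' → cl i' = cl i)
    (H2 : ∀ i : Fin k, cl i.castSucc = cl i.succ → al i.castSucc + hT T * 1 ≤ al i.succ)
    {i i' : ℕ} (hi' : i' ≤ k) (h : ex cl i = ex cl i') (l : ℕ) (h1 : i ≤ l) (h2 : l < i') :
    ex cl l = ex cl (l + 1) ∧ ex al l + hT T ≤ ex al (l + 1) := by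
  have hsame : ∀ m : ℕ, i ≤ m → m ≤ i' → ex cl m = ex cl i := by
    intro m hm1 hm2
    unfold ex at h ⊢
    refine H1 _ _ _ ?_ ?_ h
    · rw [Fin.mk_le_mk]
      omega
    · rw [Fin.mk_le_mk]
      omega
  have heq : ex cl l = ex cl (l + 1) :=
    (hsame l h1 (by omega)).trans (hsame (l + 1) (by omega) (by omega)).symm
  refine ⟨heq, ?_⟩
  have hlk : l < k := by omega
  have e1 : ex cl l = cl (Fin.castSucc (⟨l, hlk⟩ : Fin k)) := ex_eq cl (Fin.castSucc (⟨l, hlk⟩ : Fin k))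
  have e2 : ex cl (l + 1) = cl (Fin.succ (⟨l, hlk⟩ : Fin k)) := ex_eq cl (Fin.succ (⟨l, hlk⟩ : Fin k))
  have e3 : ex al l = al (Fin.castSucc (⟨l, hlk⟩ : Fin k)) := ex_eq al (Fin.castSucc (⟨l, hlk⟩ : Fin k))
  have e4 : ex al (l + 1) = al (Fin.succ (⟨l, hlk⟩ : Fin k)) := ex_eq al (Fin.succ (⟨l, hlk⟩ : Fin k))
  rw [e1, e2] at heq
  have h3 := H2 ⟨l, hlk⟩ heq
  rw [mul_one] at h3
  rw [e3, e4]
  exact h3

theorem geo_gap {k : ℕ} {T : ℝ} (hT3 : 3 ≤ T) (cl : Fin (k + 1) → Fin (k + 1)) (al : Fin (k + 1) → ℝ)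
    (H1 : ∀ i i' i'' : Fin (k + 1), i ≤ i' → i' ≤ i'' → cl i = cl i'' → cl i' = cl i)
    (H2 : ∀ i : Fin k, cl i.castSucc = cl i.succ → al i.castSucc + hT T * 1 ≤ al i.succ)
    {i i' : ℕ} (hi : i < i') (hi' : i' ≤ k) (h : ex cl i = ex cl i') : hT T ≤ ex al i' - ex al i := by
  have hpos : 0 ≤ hT T := by
    unfold hT
    have h1 : 0 < Real.log T := Real.log_pos (by linarith)
    positivity
  have ind : ∀ m : ℕ, i + 1 + m ≤ i' → ex al i + hT T ≤ ex al (i + 1 + m) := by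
    intro m
    induction m with
    | zero =>
      intro hm
      exact (geo_in cl al H1 H2 hi' h i le_rfl hi).2
    | succ m ih =>
      intro hm
      have h2 := ih (by omega)
      have h3 := (geo_in cl al H1 H2 hi' h (i + 1 + m) (by omega) (by omega)).2
      have h4 : i + 1 + (m + 1) = i + 1 + m + 1 := by omega
      rw [h4]
      linarith
  have h5 := ind (i' - (i + 1)) (by omega)
  have h6 : i + 1 + (i' - (i + 1)) = i' := by omega
  rw [h6] at h5
  linarith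

private theorem vgeoB_log (k : ℕ) (w : ℕ → ℝ) (i i' : ℕ)
    (hg : ∀ l, i ≤ l → l < i' → 0 < w (l + 1) - w l)
    (hi : i < i') (hk : i' ≤ k) (l : ℕ) (h1 : i ≤ l) (h2 : l < i')
    (hm : ∀ l', i ≤ l' → l' < i' → w (l' + 1) - w l' ≤ w (l + 1) - w l) :
    |Real.log (w i' - w i) - Real.log (w (l + 1) - w l)| ≤ Real.log k := by
  have hl := hg l h1 h2
  have hk0 : 0 < k := by omega
  have hk1 : (1 : ℝ) ≤ k := by exact_mod_cast hk0
  have e : w i' - w i = ∑ l ∈ Finset.Ico i i', (w (l + 1) - w l) := by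
    rw [Finset.sum_Ico_sub w hi.le]
  have hlow : w (l + 1) - w l ≤ w i' - w i := by
    rw [e]
    exact Finset.single_le_sum (f := fun l => w (l + 1) - w l)
      (fun j hj => (hg j (Finset.mem_Ico.1 hj).1 (Finset.mem_Ico.1 hj).2).le)
      (Finset.mem_Ico.2 ⟨h1, h2⟩)
  have hup : w i' - w i ≤ k * (w (l + 1) - w l) := by
    rw [e]
    have h3 : ∑ j ∈ Finset.Ico i i', (w (j + 1) - w j) ≤
        ∑ _j ∈ Finset.Ico i i', (w (l + 1) - w l) := by
      refine Finset.sum_le_sum fun j hj => ?_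
      rw [Finset.mem_Ico] at hj
      exact hm j hj.1 hj.2
    refine h3.trans ?_
    rw [Finset.sum_const, Nat.card_Ico, nsmul_eq_mul]
    have h4 : ((i' - i : ℕ) : ℝ) ≤ k := by exact_mod_cast (by omega : i' - i ≤ k)
    exact mul_le_mul_of_nonneg_right h4 hl.le
  have hpos : 0 < w i' - w i := lt_of_lt_of_le hl hlow
  have a1 := Real.log_le_log hl hlow
  have a2 := Real.log_le_log hpos hup
  rw [Real.log_mul (by positivity) hl.ne'] at a2
  have a3 : 0 ≤ Real.log k := Real.log_nonneg hk1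
  rw [abs_le]
  constructor <;> linarith

private theorem vgeoB_hT {T : ℝ} (hT3 : 3 ≤ T) : 0 < Real.log T ∧ 0 < hT T := by
  have h1 : 0 < Real.log T := Real.log_pos (by linarith)
  refine ⟨h1, ?_⟩
  unfold hT
  have := Real.pi_pos
  positivity

theorem geo_cut {k : ℕ} {T η : ℝ} (hT3 : 3 ≤ T) (hη : 0 < η) (hη1 : η ≤ 1 / 2)
    (cl : Fin (k + 1) → Fin (k + 1)) (al : Fin (k + 1) → ℝ)
    (H1 : ∀ i i' i'' : Fin (k + 1), i ≤ i' → i' ≤ i'' → cl i = cl i'' → cl i' = cl i)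
    (H2 : ∀ i : Fin k, cl i.castSucc = cl i.succ → al i.castSucc + hT T * 1 ≤ al i.succ)
    {i i' : ℕ} (hi : i < i') (hi' : i' ≤ k) (h : ex cl i = ex cl i')
    (hN : Nc (wN T η cl al) ((1 - η) * Real.log (Real.log T)) i ≠
      Nc (wN T η cl al) ((1 - η) * Real.log (Real.log T)) i') :
    hT T * Real.log T ^ (1 - η) ≤ ex al i' - ex al i := by
  obtain ⟨hl0, hh0⟩ := vgeoB_hT hT3
  obtain ⟨l, h1, h2, h3⟩ := Nc_ne _ _ hi.le hN
  obtain ⟨hc, hg⟩ := geo_in cl al H1 H2 hi' h l h1 h2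
  have hP : 0 < Real.log T ^ (1 - η) := Real.rpow_pos_of_pos hl0 _
  have hgap : 0 < (ex al (l + 1) - ex al l) / hT T := div_pos (by linarith) hh0
  unfold wN at h3
  rw [if_pos hc, ← Real.log_rpow hl0] at h3
  have h4 : Real.log T ^ (1 - η) ≤ min ((ex al (l + 1) - ex al l) / hT T) (Real.log T ^ (1 - η)) :=
    (Real.log_le_log_iff hP (lt_min hgap hP)).1 h3
  have h5 : Real.log T ^ (1 - η) ≤ (ex al (l + 1) - ex al l) / hT T := h4.trans (min_le_left _ _)
  rw [le_div_iff₀ hh0] at h5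
  have e : ex al i' - ex al i = ∑ l ∈ Finset.Ico i i', (ex al (l + 1) - ex al l) := by
    rw [Finset.sum_Ico_sub (ex al) hi.le]
  have hlow : ex al (l + 1) - ex al l ≤ ex al i' - ex al i := by
    rw [e]
    refine Finset.single_le_sum (f := fun l => ex al (l + 1) - ex al l) (fun j hj => ?_)
      (Finset.mem_Ico.2 ⟨h1, h2⟩)
    have hj' := Finset.mem_Ico.1 hj
    have h6 := (geo_in cl al H1 H2 hi' h j hj'.1 hj'.2).2
    show 0 ≤ ex al (j + 1) - ex al j
    linarith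
  linarith

theorem geo_near {k : ℕ} {T η : ℝ} (hT3 : 3 ≤ T) (hη : 0 < η) (hη1 : η ≤ 1 / 2)
    (cl : Fin (k + 1) → Fin (k + 1)) (al : Fin (k + 1) → ℝ)
    (H1 : ∀ i i' i'' : Fin (k + 1), i ≤ i' → i' ≤ i'' → cl i = cl i'' → cl i' = cl i)
    (H2 : ∀ i : Fin k, cl i.castSucc = cl i.succ → al i.castSucc + hT T * 1 ≤ al i.succ)
    (L : ℕ → ℕ → ℝ) (hL1 : ∀ i i' l : ℕ, i ≤ l → l < i' → i' ≤ k → wN T η cl al l ≤ L i i')
    (hL2 : ∀ i i' : ℕ, i < i' → i' ≤ k → ∃ l, i ≤ l ∧ l < i' ∧ L i i' = wN T η cl al l)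
    {i i' : ℕ} (hi : i < i') (hi' : i' ≤ k)
    (hN : Nc (wN T η cl al) ((1 - η) * Real.log (Real.log T)) i =
      Nc (wN T η cl al) ((1 - η) * Real.log (Real.log T)) i') :
    ex al i' - ex al i ≤ k * (hT T * Real.log T ^ (1 - η)) ∧
      |Real.log ((ex al i' - ex al i) / hT T) - L i i'| ≤ Real.log k := by
  obtain ⟨hl0, hh0⟩ := vgeoB_hT hT3
  have hP : 0 < Real.log T ^ (1 - η) := Real.rpow_pos_of_pos hl0 _
  have hcl : ex cl i = ex cl i' := geo_cl cl al hi.le hN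
  have hgap : ∀ l, i ≤ l → l < i' → 0 < ex al (l + 1) - ex al l := by
    intro l h1 h2
    have h3 := (geo_in cl al H1 H2 hi' hcl l h1 h2).2
    linarith
  have hw : ∀ l, i ≤ l → l < i' → (ex al (l + 1) - ex al l) / hT T < Real.log T ^ (1 - η) ∧
      wN T η cl al l = Real.log ((ex al (l + 1) - ex al l) / hT T) := by
    intro l h1 h2
    have hc := (geo_in cl al H1 H2 hi' hcl l h1 h2).1
    have hlt := Nc_eq _ _ hN l h1 h2
    have hq : 0 < (ex al (l + 1) - ex al l) / hT T := div_pos (hgap l h1 h2) hh0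
    unfold wN at hlt ⊢
    rw [if_pos hc] at hlt ⊢
    rw [← Real.log_rpow hl0] at hlt
    have h3 : min ((ex al (l + 1) - ex al l) / hT T) (Real.log T ^ (1 - η)) <
        Real.log T ^ (1 - η) := (Real.log_lt_log_iff (lt_min hq hP) hP).1 hlt
    have h4 : (ex al (l + 1) - ex al l) / hT T < Real.log T ^ (1 - η) := by
      by_contra hcon
      rw [min_eq_right (not_lt.mp hcon)] at h3
      exact lt_irrefl _ h3
    exact ⟨h4, by rw [min_eq_left h4.le]⟩
  constructor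
  · have e : ex al i' - ex al i = ∑ l ∈ Finset.Ico i i', (ex al (l + 1) - ex al l) := by
      rw [Finset.sum_Ico_sub (ex al) hi.le]
    have h3 : ∑ j ∈ Finset.Ico i i', (ex al (j + 1) - ex al j) ≤
        ∑ _j ∈ Finset.Ico i i', (hT T * Real.log T ^ (1 - η)) := by
      refine Finset.sum_le_sum fun j hj => ?_
      rw [Finset.mem_Ico] at hj
      have h4 := (hw j hj.1 hj.2).1
      rw [div_lt_iff₀ hh0] at h4
      linarith [mul_comm (hT T) (Real.log T ^ (1 - η))]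
    rw [e]
    refine h3.trans ?_
    rw [Finset.sum_const, Nat.card_Ico, nsmul_eq_mul]
    have h4 : ((i' - i : ℕ) : ℝ) ≤ k := by exact_mod_cast (by omega : i' - i ≤ k)
    exact mul_le_mul_of_nonneg_right h4 (mul_pos hh0 hP).le
  · obtain ⟨l, h1, h2, hLl⟩ := hL2 i i' hi hi'
    have hsub : ∀ a b : ℕ, ex al a / hT T - ex al b / hT T = (ex al a - ex al b) / hT T :=
      fun a b => (sub_div _ _ _).symm
    have hmain := vgeoB_log k (fun l => ex al l / hT T) i i' (fun l' h3 h4 => by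
        show 0 < ex al (l' + 1) / hT T - ex al l' / hT T
        rw [hsub]
        exact div_pos (hgap l' h3 h4) hh0) hi hi' l h1 h2 (fun l' h3 h4 => by
        show ex al (l' + 1) / hT T - ex al l' / hT T ≤ ex al (l + 1) / hT T - ex al l / hT T
        rw [hsub, hsub]
        have h5 := hL1 i i' l' h3 h4 hi'
        rw [hLl, (hw l' h3 h4).2, (hw l h1 h2).2] at h5
        exact (Real.log_le_log_iff (div_pos (hgap l' h3 h4) hh0) (div_pos (hgap l h1 h2) hh0)).1 h5)
    have hmain' : |Real.log (ex al i' / hT T - ex al i / hT T) -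
        Real.log (ex al (l + 1) / hT T - ex al l / hT T)| ≤ Real.log k := hmain
    rw [hsub, hsub] at hmain'
    rw [hLl, (hw l h1 h2).2]
    exact hmain'

end Pool.Agent.Lib.MP_ec260d_ntD.VG
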