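import Mathlib
import Pool.Agent.Lib.MP_ec260d_ntD.F.Defs

/-!
# VZ: consequences of `FarOK`

`far_abs`: `l^(-η) ≤ |ζ| ≤ l^η`, take logarithms (`u' = u`).
`far_var`: `f(v) = log |ζ(1+σ+iv)|` is differentiable on `|v - u| ≤ 1/50` (`ζ ≠ 0` there by `FarOK`, `1 + σ + iv ≠ 1` as `σ > 0`), `|f'(v)| = |Re (i ζ'/ζ)| ≤ |ζ'/ζ| ≤ l^η`; mean value inequality (`Convex.norm_image_sub_le_of_norm_hasDerivWithin_le` or similar).
(For the derivative of `log ‖F‖` write `log ‖F‖ = (1/2) log (normSq F)`, or use `HasDerivAt` of `Complex.log (F v / F v₀)` locally, or compare: for the exponential bound one can also use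
`d/dv ‖F v‖`; any proof is fine. Alternative without derivatives of the norm: `G(v) = ζ(1+σ+iv)`, `‖G'‖ ≤ l^η ‖G‖` gives `‖G(v)‖ ≤ ‖G(u)‖ exp (l^η |v - u|)` by Gronwall (`norm_le_gronwallBound_of_norm_deriv_right_le`) in both directions.)
-/

namespace Pool.Agent.Lib.MP_ec260d_ntD.VG

open Complex Set Filter Topology MeasureTheory

theorem far_abs {η l u : ℝ} (hl : 1 ≤ l) (h : FarOK η l u) {σ : ℝ} (h0 : 0 < σ) (h1 : σ ≤ 1 / 50) :
    |Real.log ‖riemannZeta (((1 + σ : ℝ) : ℂ) + u * I)‖| ≤ η * Real.log l := by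
  have hl0 : 0 < l := by linarith
  obtain ⟨h2, h3, -⟩ := h u σ (by norm_num) h0 h1
  have hp : 0 < l ^ (-η) := Real.rpow_pos_of_pos hl0 _
  have hN : 0 < ‖riemannZeta (((1 + σ : ℝ) : ℂ) + u * I)‖ := lt_of_lt_of_le hp h3
  have e1 := Real.log_le_log hN h2
  have e2 := Real.log_le_log hp h3
  rw [Real.log_rpow hl0] at e1 e2
  rw [abs_le]
  constructor
  · linarith
  · exact e1

theorem far_var {η l u : ℝ} (hl : 1 ≤ l) (h : FarOK η l u) {σ : ℝ} (h0 : 0 < σ) (h1 : σ ≤ 1 / 50) {u' : ℝ}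
    (hu : |u' - u| ≤ 1 / 50) :
    |Real.log ‖riemannZeta (((1 + σ : ℝ) : ℂ) + u' * I)‖ - Real.log ‖riemannZeta (((1 + σ : ℝ) : ℂ) + u * I)‖| ≤
      l ^ η * |u' - u| := by
  have hl0 : 0 < l := by linarith
  set F : ℝ → ℂ := fun v => riemannZeta (((1 + σ : ℝ) : ℂ) + v * I) with hF
  have hne : ∀ v : ℝ, |v - u| ≤ 1 / 50 → F v ≠ 0 := by
    intro v hv h4
    obtain ⟨-, h3, -⟩ := h v σ hv h0 h1
    have hp : 0 < l ^ (-η) := Real.rpow_pos_of_pos hl0 _
    have hN : 0 < ‖riemannZeta (((1 + σ : ℝ) : ℂ) + v * I)‖ := lt_of_lt_of_le hp h3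
    rw [show riemannZeta (((1 + σ : ℝ) : ℂ) + v * I) = F v from rfl, h4, norm_zero] at hN
    exact lt_irrefl _ hN
  have hd : ∀ v : ℝ, HasDerivAt F (deriv riemannZeta (((1 + σ : ℝ) : ℂ) + v * I) * I) v := by
    intro v
    have hs : (((1 + σ : ℝ) : ℂ) + v * I) ≠ 1 := by
      intro hc
      have := congrArg Complex.re hc
      simp at this
      linarith
    have hz : HasDerivAt riemannZeta (deriv riemannZeta (((1 + σ : ℝ) : ℂ) + v * I))
        (((1 + σ : ℝ) : ℂ) + v * I) := (differentiableAt_riemannZeta hs).hasDerivAt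
    have hi : HasDerivAt (fun v : ℝ => ((1 + σ : ℝ) : ℂ) + (v : ℂ) * I) I v := by
      have h5 : HasDerivAt (fun v : ℝ => (v : ℂ)) 1 v := Complex.ofRealCLM.hasDerivAt
      have h6 := (h5.mul_const I).const_add ((1 + σ : ℝ) : ℂ)
      rw [one_mul] at h6
      exact h6
    exact hz.comp v hi
  have hlog : ∀ v : ℝ, |v - u| ≤ 1 / 50 →
      HasDerivAt (fun v => Real.log ‖F v‖)
        ((1 / 2) * ((2 * inner ℝ (F v) (deriv riemannZeta (((1 + σ : ℝ) : ℂ) + v * I) * I)) / ‖F v‖ ^ 2)) v := by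
    intro v hv
    have h5 := (hd v).norm_sq
    have h6 := (h5.log (pow_ne_zero 2 (norm_ne_zero_iff.mpr (hne v hv)))).const_mul (1 / 2 : ℝ)
    refine h6.congr_of_eventuallyEq (Eventually.of_forall fun x => ?_)
    change Real.log ‖F x‖ = 1 / 2 * Real.log (‖F x‖ ^ 2)
    rw [Real.log_pow]
    push_cast
    ring
  have hbd : ∀ v : ℝ, |v - u| ≤ 1 / 50 →
      ‖(1 / 2) * ((2 * inner ℝ (F v) (deriv riemannZeta (((1 + σ : ℝ) : ℂ) + v * I) * I)) / ‖F v‖ ^ 2)‖ ≤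
        l ^ η := by
    intro v hv
    have hN : 0 < ‖F v‖ := norm_pos_iff.mpr (hne v hv)
    obtain ⟨-, -, h4⟩ := h v σ hv h0 h1
    have h5 : |inner ℝ (F v) (deriv riemannZeta (((1 + σ : ℝ) : ℂ) + v * I) * I)| ≤
        ‖F v‖ * (l ^ η * ‖F v‖) := by
      refine (abs_real_inner_le_norm _ _).trans ?_
      refine mul_le_mul_of_nonneg_left ?_ hN.le
      rw [norm_mul, norm_I, mul_one]
      exact h4
    rw [show (1 / 2) * ((2 * inner ℝ (F v) (deriv riemannZeta (((1 + σ : ℝ) : ℂ) + v * I) * I)) / ‖F v‖ ^ 2) =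
      inner ℝ (F v) (deriv riemannZeta (((1 + σ : ℝ) : ℂ) + v * I) * I) / ‖F v‖ ^ 2 by ring]
    rw [Real.norm_eq_abs, abs_div, abs_of_pos (pow_pos hN 2), div_le_iff₀ (pow_pos hN 2)]
    refine h5.trans (le_of_eq ?_)
    ring
  have key := (convex_closedBall u (1 / 50)).norm_image_sub_le_of_norm_hasDerivWithin_le
    (f := fun v => Real.log ‖F v‖)
    (fun v hv => (hlog v (by rw [Metric.mem_closedBall, Real.dist_eq] at hv; exact hv)).hasDerivWithinAt)
    (fun v hv => hbd v (by rw [Metric.mem_closedBall, Real.dist_eq] at hv; exact hv))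
    (Metric.mem_closedBall_self (by norm_num))
    (show u' ∈ Metric.closedBall u (1 / 50) by rw [Metric.mem_closedBall, Real.dist_eq]; exact hu)
  rw [Real.norm_eq_abs, Real.norm_eq_abs] at key
  exact key

end Pool.Agent.Lib.MP_ec260d_ntD.VG
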