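import Mathlib
import Pool.Agent.Lib.MP_ec260d_ntD.V.VGeo
import Pool.Agent.Lib.MP_ec260d_ntD.V.VCos
import Pool.Agent.Lib.MP_ec260d_ntD.V.VZ

/-!
# VMat: the covariance matrix

`l = log T`, `g = (1-η) log l`, `h = hT T = 2π/l`, `w = wN T η cl al`, `N = Nc w g`, `y = |ex al i - ex al i'|`, `D = y/h`. Choose `T₀` so large that `cos_near` (with `C₁ = k + 1`) and `cos_far` hold, `l ≥ 3`, `2W/l ≤ 1/50` and `4πk l^(-η) ≤ 1/50`.
All statements are symmetric in `i, i'` (`SS_neg`/`SS_abs`, `L` symmetric), so assume `i ≤ i'`.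

`mat_near`: `N i = N i'`: `ex cl i = ex cl i'` (`geo_cl`), so `lamN = SS (ex al i - ex al i')`. If `i = i'`: `y = 0`, `Real.log 0 = 0`, `L i i = 0`. If `i < i'`: `h ≤ y ≤ k h l^(1-η) ≤ h ((k+1) l)` (`geo_gap`, `geo_near`), so `|SS - (log l - log D)| ≤ C`, and
`|log D - L i i'| ≤ log k`.

`mat_far`: `N i ≠ N i'` (so `i < i'`). If the classes differ, `lamN = 0`. Otherwise `y ≥ h l^(1-η)` (`geo_cut`). If `y ≤ 4`: `D = y l/(2π) ≤ l`, so `log D ∈ [(1-η) log l, log l]` and `|SS - (log l - log D)| ≤ C` (`cos_near`; `4 ≤ h (C₁ l) = 2π C₁`).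
If `y > 3`: `FarOK` and `cos_far`, `far_abs`.

`mat_var`: `i, i', j, j'` with `N i ≠ N i'`, `N j = N i`, `N j' = N i'`. `ex cl j = ex cl i`, `ex cl j' = ex cl i'` (`geo_cl`). If `ex cl i ≠ ex cl i'`: both entries are `0`. Otherwise assume `i < i'`; then `j < j'` (`Nc_mono`: `N j = N i < N i' = N j'`). With
`y = ex al i' - ex al i`, `y' = ex al j' - ex al j`: `|y - y'| ≤ 2 k h l^(1-η) = 4πk l^(-η) ≤ 1/50` (`geo_near` for the pairs `i, j` and `i', j'`), `y, y' ≥ h l^(1-η)`.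
If `y ≤ 3.5`: `y' ≤ 4`, `cos_near` for both, and `|log D - log D'| ≤ log (1 + 2k)` since `D'/D ≤ 1 + 2k` and conversely. If `y > 3.5`: `y' > 3`, `cos_far` for both, `far_var` (with `u = y`): `≤ l^η * 4πk l^(-η) = 4πk`.
-/

namespace Pool.Agent.Lib.MP_ec260d_ntD.VG

open Complex Set Filter Topology MeasureTheory
open Pool.Agent.Lib.MP_ec260d_ntB

private lemma vmat_sym {k : ℕ} (δ W T : ℝ) (cl : Fin (k + 1) → Fin (k + 1)) (al : Fin (k + 1) → ℝ) (i i' : ℕ) :
    lamN δ W T cl al i i' = lamN δ W T cl al i' i := by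
  unfold lamN
  by_cases h : ex cl i = ex cl i'
  · rw [if_pos h, if_pos h.symm, ← SS_neg, neg_sub]
  · rw [if_neg h, if_neg (fun hc => h hc.symm)]

private lemma vmat_log {T : ℝ} (hT3 : 3 ≤ T) : 1 ≤ Real.log T := by
  rw [Real.le_log_iff_exp_le (by linarith)]
  have := Real.exp_one_lt_d9
  linarith

private lemma vmat_h {T : ℝ} (hT3 : 3 ≤ T) : 0 < hT T := by
  unfold hT
  have := vmat_log hT3
  positivity

theorem mat_near (k : ℕ) (hk : 1 ≤ k) (δ W η : ℝ) (hδ : 0 < δ) (hδ1 : δ ≤ 1) (hW : 1 ≤ W) (hη : 0 < η) (hη1 : η ≤ 1 / 2) :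
    ∃ C T₀ : ℝ, 0 < C ∧ 3 ≤ T₀ ∧ ∀ T : ℝ, T₀ ≤ T → ∀ (cl : Fin (k + 1) → Fin (k + 1)) (al : Fin (k + 1) → ℝ),
      (∀ i i' i'' : Fin (k + 1), i ≤ i' → i' ≤ i'' → cl i = cl i'' → cl i' = cl i) →
      (∀ i : Fin k, cl i.castSucc = cl i.succ → al i.castSucc + hT T * 1 ≤ al i.succ) →
      ∀ L : ℕ → ℕ → ℝ, (∀ i, L i i = 0) → (∀ i i', L i i' = L i' i) →
      (∀ i i' l : ℕ, i ≤ l → l < i' → i' ≤ k → wN T η cl al l ≤ L i i') →
      (∀ i i' : ℕ, i < i' → i' ≤ k → ∃ l, i ≤ l ∧ l < i' ∧ L i i' = wN T η cl al l) →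
      ∀ i i' : ℕ, i ≤ k → i' ≤ k → Nc (wN T η cl al) ((1 - η) * Real.log (Real.log T)) i =
        Nc (wN T η cl al) ((1 - η) * Real.log (Real.log T)) i' →
        |lamN δ W T cl al i i' - (Real.log (Real.log T) - L i i')| ≤ C := by
  obtain ⟨C, T₀, hC, hT₀, H⟩ := cos_near δ W ((k : ℝ) + 1) hδ hδ1 hW (by positivity)
  refine ⟨C + Real.log k + 1, T₀, ?_, hT₀, ?_⟩
  · have : 0 ≤ Real.log k := Real.log_natCast_nonneg k
    linarith
  intro T hTT cl al H1 H2 L hL0 hLs hL1 hL2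
  have hk0 : 0 ≤ Real.log k := Real.log_natCast_nonneg k
  have hT3 : 3 ≤ T := hT₀.trans hTT
  have hl := vmat_log hT3
  have hh := vmat_h hT3
  have key : ∀ i i' : ℕ, i < i' → i' ≤ k → Nc (wN T η cl al) ((1 - η) * Real.log (Real.log T)) i =
        Nc (wN T η cl al) ((1 - η) * Real.log (Real.log T)) i' →
        |lamN δ W T cl al i i' - (Real.log (Real.log T) - L i i')| ≤ C + Real.log k + 1 := by
    intro i i' hii hi' hN
    have hcl := geo_cl cl al hii.le hN
    have hgap := geo_gap hT3 cl al H1 H2 hii hi' hcl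
    obtain ⟨hn1, hn2⟩ := geo_near hT3 hη hη1 cl al H1 H2 L hL1 hL2 hii hi' hN
    have hlam : lamN δ W T cl al i i' = SS δ W T (ex al i' - ex al i) := by
      unfold lamN
      rw [if_pos hcl, ← SS_neg, neg_sub]
    rw [hlam]
    set y := ex al i' - ex al i with hy
    have hy0 : 0 < y := lt_of_lt_of_le hh hgap
    have hpow : Real.log T ^ (1 - η) ≤ Real.log T := by
      calc Real.log T ^ (1 - η) ≤ Real.log T ^ (1 : ℝ) :=
            Real.rpow_le_rpow_of_exponent_le hl (by linarith)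
        _ = Real.log T := Real.rpow_one _
    have hb : |y| ≤ hT T * (((k : ℝ) + 1) * Real.log T) := by
      rw [abs_of_pos hy0]
      refine hn1.trans ?_
      have e1 : hT T * Real.log T ^ (1 - η) ≤ hT T * Real.log T := mul_le_mul_of_nonneg_left hpow hh.le
      have e2 : 0 ≤ hT T * Real.log T := by positivity
      have e3 : (0 : ℝ) ≤ k := Nat.cast_nonneg k
      nlinarith [mul_le_mul_of_nonneg_left e1 e3]
    have hs := H T hTT y (Or.inr (by rw [abs_of_pos hy0]; exact hgap)) hb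
    rw [abs_of_pos hy0] at hs
    rw [abs_le] at hs hn2 ⊢
    constructor
    · linarith [hs.1, hs.2, hn2.1, hn2.2]
    · linarith [hs.1, hs.2, hn2.1, hn2.2]
  intro i i' hi hi' hN
  rcases lt_trichotomy i i' with h | h | h
  · exact key i i' h hi' hN
  · subst h
    have hlam : lamN δ W T cl al i i = SS δ W T 0 := by
      unfold lamN
      rw [if_pos rfl, sub_self]
    rw [hlam, hL0 i]
    have hs := H T hTT 0 (Or.inl rfl) (by rw [abs_zero]; positivity)
    rw [abs_zero, zero_div, Real.log_zero] at hs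
    linarith
  · rw [vmat_sym, hLs i i']
    exact key i' i h hi hN.symm

theorem mat_far (k : ℕ) (δ W η : ℝ) (hδ : 0 < δ) (hδ1 : δ ≤ 1) (hW : 1 ≤ W) (hη : 0 < η) (hη1 : η ≤ 1 / 2) :
    ∃ C T₀ : ℝ, 0 < C ∧ 3 ≤ T₀ ∧ ∀ T : ℝ, T₀ ≤ T → ∀ (cl : Fin (k + 1) → Fin (k + 1)) (al : Fin (k + 1) → ℝ),
      (∀ i i' i'' : Fin (k + 1), i ≤ i' → i' ≤ i'' → cl i = cl i'' → cl i' = cl i) →
      (∀ i : Fin k, cl i.castSucc = cl i.succ → al i.castSucc + hT T * 1 ≤ al i.succ) →
      (∀ i i' : Fin (k + 1), cl i = cl i' → 3 ≤ |al i - al i'| → FarOK η (Real.log T) |al i - al i'|) →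
      ∀ i i' : ℕ, i ≤ k → i' ≤ k → Nc (wN T η cl al) ((1 - η) * Real.log (Real.log T)) i ≠
        Nc (wN T η cl al) ((1 - η) * Real.log (Real.log T)) i' →
        |lamN δ W T cl al i i'| ≤ η * Real.log (Real.log T) + C := by
  obtain ⟨C, T₀, hC, hT₀, H⟩ := cos_near δ W 1 hδ hδ1 hW one_pos
  obtain ⟨C', T₀', hC', hT₀', H'⟩ := cos_far δ W hδ hδ1 hW
  refine ⟨C + C', max (max T₀ T₀') (Real.exp (100 * W)), by positivity,
    hT₀.trans ((le_max_left _ _).trans (le_max_left _ _)), ?_⟩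
  intro T hTT cl al H1 H2 H3
  have hTa : T₀ ≤ T := ((le_max_left _ _).trans (le_max_left _ _)).trans hTT
  have hTb : T₀' ≤ T := ((le_max_right _ _).trans (le_max_left _ _)).trans hTT
  have hTc : Real.exp (100 * W) ≤ T := (le_max_right _ _).trans hTT
  have hT3 : 3 ≤ T := hT₀.trans hTa
  have hl := vmat_log hT3
  have hh := vmat_h hT3
  have hl0 : 0 < Real.log T := by linarith
  have hll : 0 ≤ Real.log (Real.log T) := Real.log_nonneg hl
  have hlW : 100 * W ≤ Real.log T := by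
    rw [Real.le_log_iff_exp_le (by linarith)]
    exact hTc
  have hσ0 : 0 < 2 * W / Real.log T := by positivity
  have hσ1 : 2 * W / Real.log T ≤ 1 / 50 := by
    rw [div_le_iff₀ hl0]
    linarith
  have key : ∀ i i' : ℕ, i < i' → i' ≤ k → Nc (wN T η cl al) ((1 - η) * Real.log (Real.log T)) i ≠
        Nc (wN T η cl al) ((1 - η) * Real.log (Real.log T)) i' →
        |lamN δ W T cl al i i'| ≤ η * Real.log (Real.log T) + (C + C') := by
    intro i i' hii hi' hN
    by_cases hcl : ex cl i = ex cl i'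
    swap
    · unfold lamN
      rw [if_neg hcl, abs_zero]
      positivity
    have hcut := geo_cut hT3 hη hη1 cl al H1 H2 hii hi' hcl hN
    have hlam : lamN δ W T cl al i i' = SS δ W T (ex al i' - ex al i) := by
      unfold lamN
      rw [if_pos hcl, ← SS_neg, neg_sub]
    rw [hlam]
    have hF : 3 ≤ |ex al i' - ex al i| → FarOK η (Real.log T) |ex al i' - ex al i| := by
      rw [abs_sub_comm]
      exact H3 ⟨min i k, by omega⟩ ⟨min i' k, by omega⟩ hcl
    set y := ex al i' - ex al i with hy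
    have hpow1 : 1 ≤ Real.log T ^ (1 - η) := Real.one_le_rpow hl (by linarith)
    have hy1 : hT T ≤ y := by
      refine le_trans ?_ hcut
      nlinarith
    have hy0 : 0 < y := lt_of_lt_of_le hh hy1
    rcases le_total y 4 with h4 | h4
    · have hpi := Real.pi_gt_three
      have hhl : hT T * (1 * Real.log T) = 2 * Real.pi := by
        unfold hT
        field_simp
      have hs := H T hTa y (Or.inr (by rw [abs_of_pos hy0]; exact hy1)) (by
        rw [abs_of_pos hy0, hhl]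
        linarith)
      rw [abs_of_pos hy0] at hs
      have hD1 : y / hT T ≤ Real.log T := by
        rw [div_le_iff₀ hh]
        rw [one_mul] at hhl
        linarith [mul_comm (hT T) (Real.log T)]
      have hD2 : Real.log T ^ (1 - η) ≤ y / hT T := by
        rw [le_div_iff₀ hh, mul_comm]
        exact hcut
      have hlog1 : Real.log (y / hT T) ≤ Real.log (Real.log T) := Real.log_le_log (by positivity) hD1
      have hlog2 : (1 - η) * Real.log (Real.log T) ≤ Real.log (y / hT T) := by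
        rw [← Real.log_rpow hl0]
        exact Real.log_le_log (by positivity) hD2
      have hηl : 0 ≤ η * Real.log (Real.log T) := by positivity
      rw [abs_le] at hs ⊢
      constructor
      · linarith [hs.1, hs.2]
      · linarith [hs.1, hs.2]
    · have hF' := hF (by rw [abs_of_pos hy0]; linarith)
      rw [abs_of_pos hy0] at hF'
      have hfa := far_abs hl hF' hσ0 hσ1
      have hs := H' T hTb y
      rw [abs_le] at hs hfa ⊢
      constructor
      · linarith [hs.1, hs.2, hfa.1, hfa.2]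
      · linarith [hs.1, hs.2, hfa.1, hfa.2]
  intro i i' hi hi' hN
  rcases lt_trichotomy i i' with h | h | h
  · exact key i i' h hi' hN
  · exact absurd (by rw [h]) hN
  · rw [vmat_sym]
    exact key i' i h hi hN.symm

private theorem VMatC_L (w : ℕ → ℝ) : ∃ L : ℕ → ℕ → ℝ, (∀ i i' l : ℕ, i ≤ l → l < i' → w l ≤ L i i') ∧
    (∀ i i' : ℕ, i < i' → ∃ l, i ≤ l ∧ l < i' ∧ L i i' = w l) := by
  classical
  refine ⟨fun i i' => if h : i < i' then (Finset.Ico i i').sup' (Finset.nonempty_Ico.mpr h) w else 0, ?_, ?_⟩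
  · intro i i' l h1 h2
    have h : i < i' := lt_of_le_of_lt h1 h2
    simp only [dif_pos h]
    exact Finset.le_sup' w (Finset.mem_Ico.mpr ⟨h1, h2⟩)
  · intro i i' h
    simp only [dif_pos h]
    obtain ⟨l, hl, hl2⟩ := Finset.exists_mem_eq_sup' (Finset.nonempty_Ico.mpr h) w
    rw [Finset.mem_Ico] at hl
    exact ⟨l, hl.1, hl.2, hl2⟩

private theorem VMatC_near {k : ℕ} {T η : ℝ} (hT3 : 3 ≤ T) (hη : 0 < η) (hη1 : η ≤ 1 / 2)
    (cl : Fin (k + 1) → Fin (k + 1)) (al : Fin (k + 1) → ℝ)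
    (H1 : ∀ i i' i'' : Fin (k + 1), i ≤ i' → i' ≤ i'' → cl i = cl i'' → cl i' = cl i)
    (H2 : ∀ i : Fin k, cl i.castSucc = cl i.succ → al i.castSucc + hT T * 1 ≤ al i.succ)
    {i i' : ℕ} (hi : i < i') (hi' : i' ≤ k)
    (hN : Nc (wN T η cl al) ((1 - η) * Real.log (Real.log T)) i =
      Nc (wN T η cl al) ((1 - η) * Real.log (Real.log T)) i') :
    |ex al i - ex al i'| ≤ k * (hT T * Real.log T ^ (1 - η)) := by
  obtain ⟨L, hL1, hL2⟩ := VMatC_L (wN T η cl al)
  have h1 := (geo_near hT3 hη hη1 cl al H1 H2 L (fun i i' l h1 h2 _ => hL1 i i' l h1 h2)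
    (fun i i' h _ => hL2 i i' h) hi hi' hN).1
  have h2 := geo_gap hT3 cl al H1 H2 hi hi' (geo_cl cl al hi.le hN)
  have h3 : 0 < hT T := by
    unfold hT
    have : 0 < Real.log T := Real.log_pos (by linarith)
    have := Real.pi_pos
    positivity
  rw [abs_sub_comm, abs_of_nonneg (by linarith)]
  exact h1

private theorem VMatC_near2 {k : ℕ} {T η : ℝ} (hT3 : 3 ≤ T) (hη : 0 < η) (hη1 : η ≤ 1 / 2)
    (cl : Fin (k + 1) → Fin (k + 1)) (al : Fin (k + 1) → ℝ)
    (H1 : ∀ i i' i'' : Fin (k + 1), i ≤ i' → i' ≤ i'' → cl i = cl i'' → cl i' = cl i)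
    (H2 : ∀ i : Fin k, cl i.castSucc = cl i.succ → al i.castSucc + hT T * 1 ≤ al i.succ)
    {i i' : ℕ} (hi : i ≤ k) (hi' : i' ≤ k)
    (hN : Nc (wN T η cl al) ((1 - η) * Real.log (Real.log T)) i =
      Nc (wN T η cl al) ((1 - η) * Real.log (Real.log T)) i') :
    ex cl i = ex cl i' ∧ |ex al i - ex al i'| ≤ k * (hT T * Real.log T ^ (1 - η)) := by
  have h3 : 0 ≤ hT T * Real.log T ^ (1 - η) := by
    unfold hT
    have : 0 < Real.log T := Real.log_pos (by linarith)
    have := Real.pi_pos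
    positivity
  rcases lt_trichotomy i i' with h | h | h
  · exact ⟨geo_cl cl al h.le hN, VMatC_near hT3 hη hη1 cl al H1 H2 h hi' hN⟩
  · subst h
    refine ⟨rfl, ?_⟩
    rw [sub_self, abs_zero]
    positivity
  · refine ⟨(geo_cl cl al h.le hN.symm).symm, ?_⟩
    rw [abs_sub_comm]
    exact VMatC_near hT3 hη hη1 cl al H1 H2 h hi hN.symm

private theorem VMatC_symm {k : ℕ} (δ W T : ℝ) (cl : Fin (k + 1) → Fin (k + 1)) (al : Fin (k + 1) → ℝ) (i i' : ℕ) :
    lamN δ W T cl al i i' = lamN δ W T cl al i' i := by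
  unfold lamN
  by_cases h : ex cl i = ex cl i'
  · rw [if_pos h, if_pos h.symm, ← SS_neg, neg_sub]
  · rw [if_neg h, if_neg (fun h' => h h'.symm)]

/-- close distances -/
private theorem VMatC_log (k : ℕ) (h q y y' : ℝ) (hh : 0 < h) (hq : 0 < q) (h1 : h * q ≤ y) (h2 : h * q ≤ y')
    (h3 : |y - y'| ≤ 2 * k * (h * q)) :
    |Real.log (y / h) - Real.log (y' / h)| ≤ Real.log (1 + 2 * k) := by
  have hp : 0 < h * q := by positivity
  have hy : 0 < y := by linarith
  have hy' : 0 < y' := by linarith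
  have hk : (0 : ℝ) ≤ k := Nat.cast_nonneg k
  rw [abs_le] at h3
  have e1 : y ≤ (1 + 2 * k) * y' := by nlinarith
  have e2 : y' ≤ (1 + 2 * k) * y := by nlinarith
  have hk1 : (0 : ℝ) < 1 + 2 * k := by linarith
  have f1 : Real.log y ≤ Real.log (1 + 2 * k) + Real.log y' := by
    rw [← Real.log_mul hk1.ne' hy'.ne']
    exact Real.log_le_log hy e1
  have f2 : Real.log y' ≤ Real.log (1 + 2 * k) + Real.log y := by
    rw [← Real.log_mul hk1.ne' hy.ne']
    exact Real.log_le_log hy' e2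
  rw [Real.log_div hy.ne' hh.ne', Real.log_div hy'.ne' hh.ne', abs_le]
  constructor <;> linarith

private theorem VMatC_rpow {l η : ℝ} (hl : 0 < l) : l ^ (1 - η) = l / l ^ η := by
  rw [Real.rpow_sub hl, Real.rpow_one]

/-- the ordered case -/
private theorem VMatC_main (k : ℕ) (δ W η C₁ C₂ T : ℝ) (hη : 0 < η) (hη1 : η ≤ 1 / 2) (hT3 : 3 ≤ T) (hW : 1 ≤ W)
    (hl3 : 3 ≤ Real.log T) (hlW : 2 * W / Real.log T ≤ 1 / 50)
    (hlk : 2 * k * (hT T * Real.log T ^ (1 - η)) ≤ 1 / 50)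
    (hc1 : ∀ y : ℝ, (y = 0 ∨ hT T ≤ |y|) → |y| ≤ hT T * (1 * Real.log T) →
      |SS δ W T y - (Real.log (Real.log T) - Real.log (|y| / hT T))| ≤ C₁)
    (hc2 : ∀ y : ℝ, |SS δ W T y - Real.log ‖riemannZeta (((1 + 2 * W / Real.log T : ℝ) : ℂ) + y * I)‖| ≤ C₂)
    (cl : Fin (k + 1) → Fin (k + 1)) (al : Fin (k + 1) → ℝ)
    (H1 : ∀ i i' i'' : Fin (k + 1), i ≤ i' → i' ≤ i'' → cl i = cl i'' → cl i' = cl i)
    (H2 : ∀ i : Fin k, cl i.castSucc = cl i.succ → al i.castSucc + hT T * 1 ≤ al i.succ)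
    (H3 : ∀ i i' : Fin (k + 1), cl i = cl i' → 3 ≤ |al i - al i'| → FarOK η (Real.log T) |al i - al i'|)
    (i i' j j' : ℕ) (hii : i < i') (hi' : i' ≤ k) (hj : j ≤ k) (hj' : j' ≤ k)
    (hN : Nc (wN T η cl al) ((1 - η) * Real.log (Real.log T)) i ≠
      Nc (wN T η cl al) ((1 - η) * Real.log (Real.log T)) i')
    (hNj : Nc (wN T η cl al) ((1 - η) * Real.log (Real.log T)) j =
      Nc (wN T η cl al) ((1 - η) * Real.log (Real.log T)) i)
    (hNj' : Nc (wN T η cl al) ((1 - η) * Real.log (Real.log T)) j' =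
      Nc (wN T η cl al) ((1 - η) * Real.log (Real.log T)) i') :
    |lamN δ W T cl al i i' - lamN δ W T cl al j j'| ≤
      2 * |C₁| + Real.log (1 + 2 * k) + (2 * |C₂| + 4 * Real.pi * k) := by
  have hk0 : (0 : ℝ) ≤ k := Nat.cast_nonneg k
  have hpi := Real.pi_pos
  have hlog0 : 0 ≤ Real.log (1 + 2 * (k : ℝ)) := Real.log_nonneg (by linarith)
  have hA1 := abs_nonneg C₁
  have hA2 := abs_nonneg C₂
  have hl0 : 0 < Real.log T := by linarith
  have hh : 0 < hT T := by
    unfold hT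
    positivity
  have hhl : hT T * Real.log T = 2 * Real.pi := by
    unfold hT
    field_simp
  have hq : 1 ≤ Real.log T ^ (1 - η) := Real.one_le_rpow (by linarith) (by linarith)
  obtain ⟨a1, a2⟩ := VMatC_near2 hT3 hη hη1 cl al H1 H2 hj (hii.le.trans hi') hNj
  obtain ⟨b1, b2⟩ := VMatC_near2 hT3 hη hη1 cl al H1 H2 hj' hi' hNj'
  have hjj : j < j' := by
    by_contra hc
    have e1 := Nc_mono (wN T η cl al) ((1 - η) * Real.log (Real.log T)) (not_lt.mp hc)
    have e2 := Nc_mono (wN T η cl al) ((1 - η) * Real.log (Real.log T)) hii.le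
    omega
  by_cases hcl : ex cl i = ex cl i'
  swap
  · unfold lamN
    rw [if_neg hcl, if_neg (fun h => hcl (a1.symm.trans (h.trans b1))), sub_zero, abs_zero]
    positivity
  have hcl2 : ex cl j = ex cl j' := a1.trans (hcl.trans b1.symm)
  have g1 := geo_cut hT3 hη hη1 cl al H1 H2 hii hi' hcl hN
  have g2 := geo_cut hT3 hη hη1 cl al H1 H2 hjj hj' hcl2 (fun h => hN (hNj.symm.trans (h.trans hNj')))
  have eL : lamN δ W T cl al i i' = SS δ W T (ex al i' - ex al i) := by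
    unfold lamN
    rw [if_pos hcl, ← SS_neg, neg_sub]
  have eR : lamN δ W T cl al j j' = SS δ W T (ex al j' - ex al j) := by
    unfold lamN
    rw [if_pos hcl2, ← SS_neg, neg_sub]
  rw [eL, eR]
  set y := ex al i' - ex al i with hy
  set y' := ex al j' - ex al j with hy'
  set m : ℝ := hT T * Real.log T ^ (1 - η) with hm
  have hm0 : hT T ≤ m := by
    rw [hm]
    nlinarith
  have hyy : |y - y'| ≤ 2 * k * m := by
    have e : y - y' = (ex al j - ex al i) - (ex al j' - ex al i') := by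
      rw [hy, hy']
      ring
    rw [e]
    refine (abs_sub _ _).trans ?_
    linarith
  have hy0 : 0 < y := by linarith
  have hy0' : 0 < y' := by linarith
  have hyy2 := abs_le.mp (hyy.trans hlk)
  by_cases h35 : y ≤ 3.5
  · have d1 := hc1 y (Or.inr (by rw [abs_of_pos hy0]; linarith)) (by
      rw [abs_of_pos hy0, one_mul, hhl]
      linarith [Real.pi_gt_three])
    have d2 := hc1 y' (Or.inr (by rw [abs_of_pos hy0']; linarith)) (by
      rw [abs_of_pos hy0', one_mul, hhl]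
      linarith [Real.pi_gt_three, hyy2.1, hyy2.2])
    rw [abs_of_pos hy0] at d1
    rw [abs_of_pos hy0'] at d2
    have d3 := VMatC_log k (hT T) (Real.log T ^ (1 - η)) y y' hh (by linarith) g1 g2 hyy
    have d4 := le_abs_self C₁
    rw [abs_le] at d1 d2 d3 ⊢
    have hk4 : 0 ≤ 4 * Real.pi * k := by positivity
    constructor <;> linarith [d1.1, d1.2, d2.1, d2.2, d3.1, d3.2]
  · push Not at h35
    have d1 := hc2 y
    have d2 := hc2 y'
    have hF : FarOK η (Real.log T) y := by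
      have h3 := H3 ⟨min i k, by omega⟩ ⟨min i' k, by omega⟩ hcl
      have e : |al ⟨min i k, by omega⟩ - al ⟨min i' k, by omega⟩| = y := by
        change |ex al i - ex al i'| = y
        rw [abs_sub_comm, ← hy, abs_of_pos hy0]
      rw [e] at h3
      exact h3 (by linarith)
    have hσ : 0 < 2 * W / Real.log T := by positivity
    have d3 := far_var (by linarith : 1 ≤ Real.log T) hF hσ hlW (u' := y')
      (by rw [abs_sub_comm]; exact hyy.trans hlk)
    have d5 : Real.log T ^ η * |y' - y| ≤ 4 * Real.pi * k := by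
      have e1 : 0 < Real.log T ^ η := Real.rpow_pos_of_pos hl0 η
      have e2 : Real.log T ^ η * (2 * k * m) = 4 * Real.pi * k := by
        rw [hm, VMatC_rpow hl0]
        have e3 : Real.log T ^ η * (2 * k * (hT T * (Real.log T / Real.log T ^ η))) =
            2 * k * (hT T * Real.log T) := by
          field_simp
        rw [e3, hhl]
        ring
      rw [← e2, abs_sub_comm]
      exact mul_le_mul_of_nonneg_left hyy e1.le
    have d4 := le_abs_self C₂
    rw [abs_le] at d1 d2 d3 ⊢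
    constructor <;> linarith [d1.1, d1.2, d2.1, d2.2, d3.1, d3.2]

theorem mat_var (k : ℕ) (hk : 1 ≤ k) (δ W η : ℝ) (hδ : 0 < δ) (hδ1 : δ ≤ 1) (hW : 1 ≤ W) (hη : 0 < η) (hη1 : η ≤ 1 / 2) :
    ∃ C T₀ : ℝ, 0 < C ∧ 3 ≤ T₀ ∧ ∀ T : ℝ, T₀ ≤ T → ∀ (cl : Fin (k + 1) → Fin (k + 1)) (al : Fin (k + 1) → ℝ),
      (∀ i i' i'' : Fin (k + 1), i ≤ i' → i' ≤ i'' → cl i = cl i'' → cl i' = cl i) →
      (∀ i : Fin k, cl i.castSucc = cl i.succ → al i.castSucc + hT T * 1 ≤ al i.succ) →
      (∀ i i' : Fin (k + 1), cl i = cl i' → 3 ≤ |al i - al i'| → FarOK η (Real.log T) |al i - al i'|) →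
      ∀ i i' j j' : ℕ, i ≤ k → i' ≤ k → j ≤ k → j' ≤ k →
        Nc (wN T η cl al) ((1 - η) * Real.log (Real.log T)) i ≠
          Nc (wN T η cl al) ((1 - η) * Real.log (Real.log T)) i' →
        Nc (wN T η cl al) ((1 - η) * Real.log (Real.log T)) j =
          Nc (wN T η cl al) ((1 - η) * Real.log (Real.log T)) i →
        Nc (wN T η cl al) ((1 - η) * Real.log (Real.log T)) j' =
          Nc (wN T η cl al) ((1 - η) * Real.log (Real.log T)) i' →
        |lamN δ W T cl al i i' - lamN δ W T cl al j j'| ≤ C := by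
  obtain ⟨C₁, T₁, hC1, hT1, hc1⟩ := cos_near δ W 1 hδ hδ1 hW one_pos
  obtain ⟨C₂, T₂, hC2, hT2, hc2⟩ := cos_far δ W hδ hδ1 hW
  have hk0 : (0 : ℝ) < k := by exact_mod_cast hk
  have hpi := Real.pi_pos
  set A : ℝ := max (max 3 (100 * W)) ((200 * Real.pi * k) ^ (1 / η)) with hA
  have hlog0 : 0 ≤ Real.log (1 + 2 * (k : ℝ)) := Real.log_nonneg (by linarith)
  refine ⟨2 * |C₁| + Real.log (1 + 2 * k) + (2 * |C₂| + 4 * Real.pi * k), max (max T₁ T₂) (Real.exp A), ?_, ?_, ?_⟩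
  · have := abs_nonneg C₁
    have := abs_nonneg C₂
    positivity
  · exact hT1.trans ((le_max_left _ _).trans (le_max_left _ _))
  intro T hT0 cl al H1 H2 H3 i i' j j' hi hi' hj hj' hN hNj hNj'
  have t1 : T₁ ≤ T := ((le_max_left _ _).trans (le_max_left _ _)).trans hT0
  have t2 : T₂ ≤ T := ((le_max_right _ _).trans (le_max_left _ _)).trans hT0
  have t3 : Real.exp A ≤ T := (le_max_right _ _).trans hT0
  have hT3 : 3 ≤ T := hT1.trans t1
  have hlA : A ≤ Real.log T := by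
    rw [Real.le_log_iff_exp_le (by linarith)]
    exact t3
  have l3 : 3 ≤ Real.log T := ((le_max_left _ _).trans (le_max_left _ _)).trans hlA
  have lW : 100 * W ≤ Real.log T := ((le_max_right _ _).trans (le_max_left _ _)).trans hlA
  have lk : (200 * Real.pi * k) ^ (1 / η) ≤ Real.log T := (le_max_right _ _).trans hlA
  have hl0 : 0 < Real.log T := by linarith
  have hlη : 0 < Real.log T ^ η := Real.rpow_pos_of_pos hl0 η
  have lk2 : 200 * Real.pi * k ≤ Real.log T ^ η := by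
    have e := Real.rpow_le_rpow (by positivity) lk hη.le
    rw [← Real.rpow_mul (by positivity), one_div, inv_mul_cancel₀ hη.ne', Real.rpow_one] at e
    exact e
  have hlW : 2 * W / Real.log T ≤ 1 / 50 := by
    rw [div_le_div_iff₀ hl0 (by norm_num)]
    linarith
  have hlk : 2 * k * (hT T * Real.log T ^ (1 - η)) ≤ 1 / 50 := by
    rw [VMatC_rpow hl0]
    have e : 2 * (k : ℝ) * (hT T * (Real.log T / Real.log T ^ η)) = 4 * Real.pi * k / Real.log T ^ η := by
      unfold hT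
      field_simp
      ring
    rw [e, div_le_div_iff₀ hlη (by norm_num)]
    linarith
  rcases lt_trichotomy i i' with h | h | h
  · exact VMatC_main k δ W η C₁ C₂ T hη hη1 hT3 hW l3 hlW hlk (hc1 T t1) (hc2 T t2) cl al H1 H2 H3 i i' j j' h
      hi' hj hj' hN hNj hNj'
  · exact absurd (by rw [h]) hN
  · rw [VMatC_symm δ W T cl al i i', VMatC_symm δ W T cl al j j']
    exact VMatC_main k δ W η C₁ C₂ T hη hη1 hT3 hW l3 hlW hlk (hc1 T t1) (hc2 T t2) cl al H1 H2 H3 i' i j' j h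
      hi hj' hj (fun e => hN e.symm) hNj' hNj

end Pool.Agent.Lib.MP_ec260d_ntD.VG
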