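import Mathlib
import Pool.Agent.Lib.MP_ec260d_ntD.V.VAbs
import Pool.Agent.Lib.MP_ec260d_ntD.V.VForm
import Pool.Agent.Lib.MP_ec260d_ntD.V.VMat

/-!
# Interface V: lower bound for the variance

Positions `al i`, classes `cl`; consecutive positions in the same class are increasing with gap at least `M₀` mean spacings;
classes are intervals of indices (`hcl`); pairs of the same class at distance `≥ 3` satisfy `FarOK`.
The weight of the gap `i` is `log (min gap (log T))` inside a class, and `log log T` between classes.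
-/

namespace Pool.Agent.Lib.MP_ec260d_ntD

open Complex Set Filter Topology MeasureTheory
open Pool.Agent.Lib.MP_ec260d_ntB

/-- the weight of the gap `i` -/
noncomputable def gapL (T : ℝ) {k : ℕ} (cl : Fin (k + 1) → Fin (k + 1)) (al : Fin (k + 1) → ℝ) (i : Fin k) : ℝ :=
  if cl i.castSucc = cl i.succ then
    Real.log (min ((al i.succ - al i.castSucc) / hT T) (Real.log T)) else Real.log (Real.log T)

open Pool.Agent.Lib.MP_ec260d_ntD.VG

/-- the largest gap between two indices -/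
private theorem IV_gap (lam : ℕ → ℝ) : ∃ L : ℕ → ℕ → ℝ, (∀ i, L i i = 0) ∧
    (∀ i i', L i i' = L i' i) ∧
    (∀ i i' l : ℕ, i ≤ l → l < i' → lam l ≤ L i i') ∧
    ∀ i i' : ℕ, i < i' → ∃ l, i ≤ l ∧ l < i' ∧ L i i' = lam l := by
  have h : ∀ i i' : ℕ, ∃ l : ℕ, i < i' → (i ≤ l ∧ l < i' ∧ ∀ l', i ≤ l' → l' < i' → lam l' ≤ lam l) := by
    intro i i'
    by_cases hi : i < i'
    · obtain ⟨l, hl, hm⟩ := Finset.exists_max_image (Finset.Ico i i') lam
        ⟨i, Finset.mem_Ico.2 ⟨le_refl _, hi⟩⟩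
      rw [Finset.mem_Ico] at hl
      exact ⟨l, fun _ => ⟨hl.1, hl.2, fun l' h1 h2 => hm l' (Finset.mem_Ico.2 ⟨h1, h2⟩)⟩⟩
    · exact ⟨0, fun h => absurd h hi⟩
  choose m hm using h
  have key : ∀ i i' : ℕ, i < i' → (if i = i' then 0 else lam (m (min i i') (max i i'))) =
      lam (m i i') := by
    intro i i' hi
    rw [if_neg hi.ne, min_eq_left hi.le, max_eq_right hi.le]
  refine ⟨fun i i' => if i = i' then 0 else lam (m (min i i') (max i i')), fun i => if_pos rfl,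
    fun i i' => ?_, fun i i' l h1 h2 => ?_, fun i i' hi => ?_⟩
  · by_cases h : i = i'
    · subst h
      rfl
    · change (if i = i' then 0 else lam (m (min i i') (max i i'))) =
        (if i' = i then 0 else lam (m (min i' i) (max i' i)))
      rw [if_neg h, if_neg (Ne.symm h), min_comm, max_comm]
  · have hi : i < i' := lt_of_le_of_lt h1 h2
    change lam l ≤ (if i = i' then 0 else lam (m (min i i') (max i i')))
    rw [key i i' hi]
    exact (hm i i' hi).2.2 l h1 h2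
  · exact ⟨m i i', (hm i i' hi).1, (hm i i' hi).2.1, key i i' hi⟩

private theorem IV_w {x l C η : ℝ} (hl : 1 < l) (hη : 0 < η) (hη1 : η ≤ 1 / 2) (hC : 0 ≤ C)
    (h1 : Real.exp C ≤ x) (h2 : 2 * C ≤ Real.log l) :
    C ≤ Real.log (min x (l ^ (1 - η))) ∧ Real.log (min x (l ^ (1 - η))) ≤ (1 - η) * Real.log l ∧
      Real.log (min x l) ≤ 2 * Real.log (min x (l ^ (1 - η))) := by
  have hl0 : 0 < l := by linarith
  have hll : 0 < Real.log l := Real.log_pos hl
  have hp : 0 < l ^ (1 - η) := Real.rpow_pos_of_pos hl0 _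
  have hlp : Real.log (l ^ (1 - η)) = (1 - η) * Real.log l := Real.log_rpow hl0 _
  have hx1 : 1 ≤ x := by
    have := Real.one_le_exp hC
    linarith
  have hx0 : 0 < x := by linarith
  have hm0 : 0 < min x (l ^ (1 - η)) := lt_min hx0 hp
  have hη2 : 1 / 2 * Real.log l ≤ (1 - η) * Real.log l :=
    mul_le_mul_of_nonneg_right (by linarith) hll.le
  refine ⟨?_, ?_, ?_⟩
  · rw [Real.le_log_iff_exp_le hm0]
    refine le_min h1 ?_
    rw [← Real.le_log_iff_exp_le hp, hlp]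
    linarith
  · rw [← hlp]
    exact Real.log_le_log hm0 (min_le_right _ _)
  · rcases le_or_gt x (l ^ (1 - η)) with h | h
    · rw [min_eq_left h]
      have h3 : Real.log (min x l) ≤ Real.log x := Real.log_le_log (lt_min hx0 hl0) (min_le_left _ _)
      have h4 : 0 ≤ Real.log x := Real.log_nonneg hx1
      linarith
    · rw [min_eq_right h.le, hlp]
      have h3 : Real.log (min x l) ≤ Real.log l := Real.log_le_log (lt_min hx0 hl0) (min_le_right _ _)
      linarith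

theorem vlow (k : ℕ) (δ W : ℝ) (hδ : 0 < δ) (hδ1 : δ ≤ 1) (hW : 1 ≤ W) :
    ∃ c₀ η M₀ T₀ : ℝ, 0 < c₀ ∧ 0 < η ∧ η ≤ 1 ∧ 3 ≤ M₀ ∧ 3 ≤ T₀ ∧ ∀ T : ℝ, T₀ ≤ T →
      ∀ (cl : Fin (k + 1) → Fin (k + 1)) (al : Fin (k + 1) → ℝ),
        (∀ i i' i'' : Fin (k + 1), i ≤ i' → i' ≤ i'' → cl i = cl i'' → cl i' = cl i) →
        (∀ i : Fin k, cl i.castSucc = cl i.succ → al i.castSucc + hT T * M₀ ≤ al i.succ) →
        (∀ i i' : Fin (k + 1), cl i = cl i' → 3 ≤ |al i - al i'| → FarOK η (Real.log T) |al i - al i'|) →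
        ∀ ζ : Fin k → ℝ, c₀ * ∑ i, ζ i ^ 2 * gapL T cl al i ≤ VFD δ W T cl al ζ := by
  rcases Nat.eq_zero_or_pos k with hk | hk
  · subst hk
    refine ⟨1, 1, 3, 3, one_pos, one_pos, le_refl _, le_refl _, le_refl _, ?_⟩
    intro T hT3 cl al _ _ _ ζ
    rw [Finset.univ_eq_empty, Finset.sum_empty, mul_zero]
    unfold VFD
    refine Finset.sum_nonneg fun j _ => Finset.sum_nonneg fun p _ => mul_nonneg (Real.rpow_nonneg (Nat.cast_nonneg p) _) ?_
    exact Finset.sum_nonneg fun c _ => sq_nonneg _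
  have hk1 : (1 : ℝ) ≤ k := by exact_mod_cast hk
  have hk0 : (0 : ℝ) < k := by linarith
  obtain ⟨η, hηd⟩ : ∃ η : ℝ, η = 1 / (64 * (k : ℝ) ^ 2 * ((k : ℝ) + 1)) := ⟨_, rfl⟩
  have hden : 0 < 64 * (k : ℝ) ^ 2 * ((k : ℝ) + 1) := by positivity
  have hη : 0 < η := by rw [hηd]; positivity
  have hηm : 64 * (k : ℝ) ^ 2 * ((k : ℝ) + 1) * η = 1 := by
    rw [hηd]
    field_simp
  have hη1 : η ≤ 1 / 2 := by
    have h1 : (2 : ℝ) ≤ 64 * (k : ℝ) ^ 2 * ((k : ℝ) + 1) := by
      have h2 : (1 : ℝ) ≤ (k : ℝ) ^ 2 := one_le_pow₀ hk1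
      nlinarith
    rw [hηd]
    exact one_div_le_one_div_of_le (by norm_num) h1
  obtain ⟨C1, T1, hC1, hT1, hN⟩ := mat_near k hk δ W η hδ hδ1 hW hη hη1
  obtain ⟨C2, T2, hC2, hT2, hF⟩ := mat_far k δ W η hδ hδ1 hW hη hη1
  obtain ⟨C3, T3, hC3, hT3', hV⟩ := mat_var k hk δ W η hδ hδ1 hW hη hη1
  obtain ⟨C, hC⟩ : ∃ C : ℝ, C = C1 + C3 := ⟨_, rfl⟩
  have hC0 : 0 < C := by linarith
  obtain ⟨D, hD⟩ : ∃ D : ℝ, D = 32 * (k : ℝ) ^ 3 * C := ⟨_, rfl⟩
  have hD0 : 0 < D := by rw [hD]; positivity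
  refine ⟨1 / (4 * (k : ℝ) ^ 2), η, 3 + Real.exp D,
    max (max T1 (max T2 T3)) (Real.exp (Real.exp (max (2 * D) (C2 / η)))), by positivity, hη, by linarith,
    by linarith [Real.exp_pos D], le_trans hT1 ((le_max_left _ _).trans (le_max_left _ _)), ?_⟩
  intro T hTT cl al H1 H2 H3 ζ
  have hTT1 : T1 ≤ T := ((le_max_left _ _).trans (le_max_left _ _)).trans hTT
  have hTT2 : T2 ≤ T := ((le_max_left _ _).trans ((le_max_right _ _).trans (le_max_left _ _))).trans hTT
  have hTT3 : T3 ≤ T := ((le_max_right _ _).trans ((le_max_right _ _).trans (le_max_left _ _))).trans hTT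
  have hTT4 : Real.exp (Real.exp (max (2 * D) (C2 / η))) ≤ T := (le_max_right _ _).trans hTT
  have hT3 : 3 ≤ T := hT1.trans hTT1
  have hT0 : 0 < T := by linarith
  have hl4 : Real.exp (max (2 * D) (C2 / η)) ≤ Real.log T := (Real.le_log_iff_exp_le hT0).2 hTT4
  have hl0 : 0 < Real.log T := (Real.exp_pos _).trans_le hl4
  have hll4 : max (2 * D) (C2 / η) ≤ Real.log (Real.log T) := (Real.le_log_iff_exp_le hl0).2 hl4
  have hllD : 2 * D ≤ Real.log (Real.log T) := (le_max_left _ _).trans hll4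
  have hllC : C2 / η ≤ Real.log (Real.log T) := (le_max_right _ _).trans hll4
  have hll0 : 0 < Real.log (Real.log T) := by linarith
  have hl1 : 1 < Real.log T := by
    by_contra hc
    exact absurd (Real.log_nonpos hl0.le (not_lt.1 hc)) (not_le.2 hll0)
  have hllC' : C2 ≤ η * Real.log (Real.log T) := by
    rw [div_le_iff₀ hη] at hllC
    linarith
  have hh0 : 0 < hT T := by
    unfold hT
    exact div_pos (by positivity) hl0
  have H2' : ∀ i : Fin k, cl i.castSucc = cl i.succ → al i.castSucc + hT T * 1 ≤ al i.succ := by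
    intro i hi
    have h1 := H2 i hi
    have h2 : hT T * 1 ≤ hT T * (3 + Real.exp D) :=
      mul_le_mul_of_nonneg_left (by linarith [Real.exp_pos D]) hh0.le
    linarith
  obtain ⟨b, hb, hB, hVF⟩ := vfd_eq δ W T hδ hδ1 hT3 cl al ζ
  obtain ⟨w, hwd⟩ : ∃ w : ℕ → ℝ, w = wN T η cl al := ⟨_, rfl⟩
  obtain ⟨L, hL0, hLs, hL1, hL2⟩ := IV_gap w
  have hexs : ∀ i : Fin k, ex cl (i : ℕ) = cl i.castSucc ∧ ex cl ((i : ℕ) + 1) = cl i.succ ∧
      ex al (i : ℕ) = al i.castSucc ∧ ex al ((i : ℕ) + 1) = al i.succ := by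
    intro i
    exact ⟨ex_eq cl i.castSucc, ex_eq cl i.succ, ex_eq al i.castSucc, ex_eq al i.succ⟩
  have hwi : ∀ i : Fin k, D ≤ w i ∧ w i ≤ (1 - η) * Real.log (Real.log T) ∧ gapL T cl al i ≤ 2 * w i := by
    intro i
    obtain ⟨e1, e2, e3, e4⟩ := hexs i
    have hη2 : 1 / 2 * Real.log (Real.log T) ≤ (1 - η) * Real.log (Real.log T) :=
      mul_le_mul_of_nonneg_right (by linarith) hll0.le
    rw [hwd]
    unfold wN gapL
    rw [e1, e2, e3, e4]
    by_cases hc : cl i.castSucc = cl i.succ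
    · rw [if_pos hc, if_pos hc]
      have hx : Real.exp D ≤ (al i.succ - al i.castSucc) / hT T := by
        rw [le_div_iff₀ hh0]
        have h1 := H2 i hc
        have h2 : Real.exp D * hT T ≤ hT T * (3 + Real.exp D) := by
          have : 0 ≤ hT T * 3 := by positivity
          linarith
        linarith
      exact IV_w hl1 hη hη1 hD0.le hx hllD
    · rw [if_neg hc, if_neg hc]
      refine ⟨by linarith, le_refl _, by linarith⟩
  have hwl : ∀ l < k, D ≤ w l ∧ w l ≤ (1 - η) * Real.log (Real.log T) := by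
    intro l hl
    have := hwi ⟨l, hl⟩
    exact ⟨this.1, this.2.1⟩
  have hg0 : 0 ≤ (1 - η) * Real.log (Real.log T) := mul_nonneg (by linarith) hll0.le
  have hgl : (1 - η) * Real.log (Real.log T) ≤ Real.log (Real.log T) := by
    have : 0 ≤ η * Real.log (Real.log T) := by positivity
    linarith
  have key := vabs k hk b w L (lamN δ W T cl al) ((1 - η) * Real.log (Real.log T)) (Real.log (Real.log T)) C
    (2 * η * Real.log (Real.log T)) hC0.le (by positivity) hg0 hgl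
    (fun l hl => hD0.le.trans (hwl l hl).1) (fun l hl => by rw [← hD]; exact (hwl l hl).1)
    (fun l hl => (hwl l hl).2) ?_ hb hL0 hLs (fun i i' l h1 h2 _ => hL1 i i' l h1 h2)
    (fun i i' h1 _ => hL2 i i' h1) ?_ ?_ ?_
  · rw [hVF]
    refine le_trans ?_ key
    rw [Finset.sum_range, Finset.mul_sum, Finset.mul_sum]
    refine Finset.sum_le_sum fun i _ => ?_
    rw [hB i, neg_sq]
    have h1 := (hwi i).2.2
    have h2 : 1 / (4 * (k : ℝ) ^ 2) * (ζ i ^ 2 * gapL T cl al i) ≤ 1 / (4 * (k : ℝ) ^ 2) * (ζ i ^ 2 * (2 * w i)) :=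
      mul_le_mul_of_nonneg_left (mul_le_mul_of_nonneg_left h1 (sq_nonneg _)) (by positivity)
    refine h2.trans (le_of_eq ?_)
    field_simp
    ring
  · have h1 : 16 * (k : ℝ) ^ 2 * ((k : ℝ) + 1) * (2 * η * Real.log (Real.log T)) =
        1 / 2 * Real.log (Real.log T) * (64 * (k : ℝ) ^ 2 * ((k : ℝ) + 1) * η) := by ring
    rw [h1, hηm, mul_one]
    exact mul_le_mul_of_nonneg_right (by linarith) hll0.le
  · intro i i' hi hi' hNc
    rw [hwd] at hNc
    have h1 := hN T hTT1 cl al H1 H2' L hL0 hLs (fun i i' l h1 h2 _ => by rw [← hwd]; exact hL1 i i' l h1 h2)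
      (fun i i' h1 _ => by rw [← hwd]; exact hL2 i i' h1) i i' hi hi' hNc
    linarith
  · intro i i' hi hi' hNc
    rw [hwd] at hNc
    have h1 := hF T hTT2 cl al H1 H2' H3 i i' hi hi' hNc
    linarith
  · intro i i' j j' hi hi' hj hj' hNc hNj hNj'
    rw [hwd] at hNc hNj hNj'
    have h1 := hV T hTT3 cl al H1 H2' H3 i i' j j' hi hi' hj hj' hNc hNj hNj'
    linarith

end Pool.Agent.Lib.MP_ec260d_ntD
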